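import Mathlib.Analysis.SpecialFunctions.Log.Basic
import Mathlib.Analysis.SpecialFunctions.Log.Deriv
import Mathlib.Analysis.Complex.ExponentialBounds
import Mathlib.Tactic

/-!
# The deterministic estimate for weighted graphs of small entropy cost

`hh p y = y log (y/p) - y + p` is a lower bound for the relative entropy of Bernoulli variables.
For a symmetric matrix `x` with entries in `[0,1]`, row sums `d` and weighted second row sums
`Z v = ∑ u, x v u * d u`, `main` bounds `∑ v, (d v * Z v) ^ s` in terms of the cost.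
-/

set_option autoImplicit false

namespace Pool.Agent.Q221.MeanField

open Finset

/-- `y log (y/p) - y + p` -/
noncomputable def hh (p y : ℝ) : ℝ := y * Real.log (y / p) - y + p

theorem hh_tangent {p y T : ℝ} (hp : 0 < p) (hy : 0 ≤ y) (hT : 0 < T) :
    y * Real.log T - p * (T - 1) ≤ hh p y := by
  unfold hh
  rcases hy.eq_or_lt with h0 | h0
  · rw [← h0]
    have : 0 ≤ p * T := by positivity
    simp
    linarith
  · have hu : 0 < y / (p * T) := by positivity
    have h1 := Real.one_sub_inv_le_log_of_pos hu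
    have h2 : Real.log (y / p) = Real.log (y / (p * T)) + Real.log T := by
      rw [← Real.log_mul hu.ne' hT.ne']
      congr 1
      field_simp
    rw [h2]
    have h3 : y * (1 - (y / (p * T))⁻¹) ≤ y * Real.log (y / (p * T)) :=
      mul_le_mul_of_nonneg_left h1 hy
    have h4 : y * (1 - (y / (p * T))⁻¹) = y - p * T := by
      field_simp
    rw [h4] at h3
    nlinarith

theorem hh_nonneg {p y : ℝ} (hp : 0 < p) (hy : 0 ≤ y) : 0 ≤ hh p y := by
  have := hh_tangent hp hy one_pos
  simpa using this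

theorem hh_mass {p y κ : ℝ} (hp : 0 < p) (hκ : 0 < κ) (hy : κ ≤ y) :
    y * (Real.log (κ / p) - 1) ≤ hh p y := by
  unfold hh
  have hy0 : 0 < y := lt_of_lt_of_le hκ hy
  have h1 : Real.log (κ / p) ≤ Real.log (y / p) :=
    Real.log_le_log (by positivity) (by gcongr)
  nlinarith

variable {X : Type*} [Fintype X] [DecidableEq X]

/-- hypotheses on the weight matrix and its cost -/
structure Data (X : Type*) [Fintype X] [DecidableEq X] where
  x : X → X → ℝ
  p : ℝ
  w : ℝ
  I : ℝ
  hp : 0 < p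
  hw : (Fintype.card X : ℝ) * p ≤ w
  hx0 : ∀ u v, 0 ≤ x u v
  hx1 : ∀ u v, x u v ≤ 1
  hsymm : ∀ u v, x u v = x v u
  A : X → ℝ
  hA : ∀ v, ∑ u ∈ univ.erase v, hh p (x v u) ≤ A v
  hdiag : ∀ v, x v v = 0
  hAI : ∀ v, A v ≤ I
  hAs : ∑ v, A v ≤ 2 * I

namespace Data

variable (D : Data X)

/-- row sums -/
noncomputable def d (v : X) : ℝ := ∑ u, D.x v u

/-- weighted second row sums -/
noncomputable def Z (v : X) : ℝ := ∑ u, D.x v u * D.d u

theorem A_nonneg (v : X) : 0 ≤ D.A v :=
  le_trans (sum_nonneg (fun u _ => hh_nonneg D.hp (D.hx0 v u))) (D.hA v)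

theorem I_nonneg : 0 ≤ D.I := by
  have h1 : 0 ≤ ∑ v, D.A v := sum_nonneg (fun v _ => D.A_nonneg v)
  have h2 := D.hAs
  linarith

theorem w_nonneg : 0 ≤ D.w := le_trans (by have := D.hp; positivity) D.hw

theorem d_nonneg (v : X) : 0 ≤ D.d v := sum_nonneg (fun u _ => D.hx0 v u)

theorem Z_nonneg (v : X) : 0 ≤ D.Z v :=
  sum_nonneg (fun u _ => mul_nonneg (D.hx0 v u) (D.d_nonneg u))

theorem d_erase (v : X) : D.d v = ∑ u ∈ univ.erase v, D.x v u := by
  unfold d
  rw [← Finset.add_sum_erase univ (fun u => D.x v u) (mem_univ v), D.hdiag v, zero_add]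

theorem tangent (v : X) {T : ℝ} (hT : 1 ≤ T) : D.d v * Real.log T ≤ D.A v + D.w * (T - 1) := by
  have h1 : ∑ u ∈ univ.erase v, (D.x v u * Real.log T - D.p * (T - 1)) ≤ D.A v :=
    le_trans (sum_le_sum (fun u _ => hh_tangent D.hp (D.hx0 v u) (by linarith))) (D.hA v)
  rw [sum_sub_distrib, ← sum_mul, ← D.d_erase v, sum_const, nsmul_eq_mul] at h1
  have h2 : (((univ.erase v).card : ℕ) : ℝ) ≤ (Fintype.card X : ℝ) := by
    have : (univ.erase v).card ≤ (univ : Finset X).card := card_le_card (erase_subset _ _)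
    rw [card_univ] at this
    exact_mod_cast this
  have h3 : (((univ.erase v).card : ℕ) : ℝ) * (D.p * (T - 1)) ≤ D.w * (T - 1) := by
    have h4 : 0 ≤ T - 1 := by linarith
    calc (((univ.erase v).card : ℕ) : ℝ) * (D.p * (T - 1))
        ≤ (Fintype.card X : ℝ) * (D.p * (T - 1)) := by
          apply mul_le_mul_of_nonneg_right h2
          have := D.hp
          positivity
      _ = ((Fintype.card X : ℝ) * D.p) * (T - 1) := by ring
      _ ≤ D.w * (T - 1) := mul_le_mul_of_nonneg_right D.hw h4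
  linarith

/-- a vertex of degree more than `8 w` pays for its degree -/
theorem d_le_A {v : X} (h : 8 * D.w < D.d v) : D.d v ≤ D.A v := by
  have h1 := D.tangent v (T := 4) (by norm_num)
  have h2 : (1.38 : ℝ) ≤ Real.log 4 := by
    rw [show (4 : ℝ) = 2 ^ 2 by norm_num, Real.log_pow]
    have := Real.log_two_gt_d9
    push_cast
    linarith
  have h3 : D.d v * 1.38 ≤ D.d v * Real.log 4 := mul_le_mul_of_nonneg_left h2 (D.d_nonneg v)
  have h4 := D.w_nonneg
  linarith

/-- high degree: pays much -/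
theorem d_high {v : X} {T : ℝ} (hT : 1 ≤ T) (h : D.w * T < D.d v) :
    D.d v * (Real.log T - 1) ≤ D.A v := by
  have h1 := D.tangent v hT
  have h2 := D.w_nonneg
  nlinarith

theorem d_le {v : X} {T ℓ Dm : ℝ} (hT : 1 ≤ T) (hℓ : 0 < ℓ) (hℓT : ℓ ≤ Real.log T - 1)
    (h1 : D.w * T ≤ Dm) (h2 : D.I ≤ Dm * ℓ) : D.d v ≤ Dm := by
  by_cases h : D.w * T < D.d v
  · have h3 := D.d_high hT h
    have h4 : D.d v * ℓ ≤ D.d v * (Real.log T - 1) :=
      mul_le_mul_of_nonneg_left hℓT (D.d_nonneg v)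
    have h5 : D.d v * ℓ ≤ Dm * ℓ := by
      linarith [D.hAI v]
    exact le_of_mul_le_mul_right h5 hℓ
  · push Not at h
    linarith

/-- the part of `Z v` coming from neighbours of large degree -/
noncomputable def U (v : X) : ℝ := ∑ u ∈ univ.filter (fun u => 8 * D.w < D.d u), D.x v u * D.d u

theorem U_nonneg (v : X) : 0 ≤ D.U v :=
  sum_nonneg (fun u _ => mul_nonneg (D.hx0 v u) (D.d_nonneg u))

theorem Z_le (v : X) : D.Z v ≤ 8 * D.w * D.d v + D.U v := by
  unfold Z U
  rw [← Finset.sum_filter_add_sum_filter_not univ (fun u => 8 * D.w < D.d u), add_comm]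
  gcongr
  calc ∑ u ∈ univ.filter (fun u => ¬ 8 * D.w < D.d u), D.x v u * D.d u
      ≤ ∑ u ∈ univ.filter (fun u => ¬ 8 * D.w < D.d u), D.x v u * (8 * D.w) := by
        apply sum_le_sum
        intro u hu
        rw [mem_filter] at hu
        exact mul_le_mul_of_nonneg_left (not_lt.mp hu.2) (D.hx0 v u)
    _ ≤ ∑ u, D.x v u * (8 * D.w) := by
        apply sum_le_sum_of_subset_of_nonneg (filter_subset _ _)
        intro u _ _
        have := D.w_nonneg
        have := D.hx0 v u
        positivity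
    _ = 8 * D.w * D.d v := by
        unfold d
        rw [← sum_mul]
        ring

theorem sum_big_d : ∑ u ∈ univ.filter (fun u => 8 * D.w < D.d u), D.d u ≤ 2 * D.I := by
  calc ∑ u ∈ univ.filter (fun u => 8 * D.w < D.d u), D.d u
      ≤ ∑ u ∈ univ.filter (fun u => 8 * D.w < D.d u), D.A u := by
        apply sum_le_sum
        intro u hu
        rw [mem_filter] at hu
        exact D.d_le_A hu.2
    _ ≤ ∑ u, D.A u := by
        apply sum_le_sum_of_subset_of_nonneg (filter_subset _ _)
        intro u _ _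
        exact D.A_nonneg u
    _ ≤ 2 * D.I := D.hAs

theorem U_le_two (v : X) : D.U v ≤ 2 * D.I := by
  refine le_trans ?_ D.sum_big_d
  unfold U
  apply sum_le_sum
  intro u _
  calc D.x v u * D.d u ≤ 1 * D.d u := mul_le_mul_of_nonneg_right (D.hx1 v u) (D.d_nonneg u)
    _ = D.d u := one_mul _

theorem sum_U : ∑ v, D.U v ≤ (2 * D.I) ^ 2 := by
  unfold U
  rw [sum_comm]
  have h1 : ∀ u ∈ univ.filter (fun u => 8 * D.w < D.d u), ∑ v, D.x v u * D.d u = D.d u * D.d u := by
    intro u _
    rw [← sum_mul]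
    congr 1
    unfold d
    exact sum_congr rfl (fun v _ => D.hsymm v u)
  rw [sum_congr rfl h1]
  have h2 : ∑ u ∈ univ.filter (fun u => 8 * D.w < D.d u), D.d u * D.d u ≤
      (∑ u ∈ univ.filter (fun u => 8 * D.w < D.d u), D.d u) *
      (∑ u ∈ univ.filter (fun u => 8 * D.w < D.d u), D.d u) := by
    rw [sum_mul]
    apply sum_le_sum
    intro u hu
    apply mul_le_mul_of_nonneg_left _ (D.d_nonneg u)
    exact single_le_sum (f := fun u => D.d u) (fun u _ => D.d_nonneg u) hu
  refine le_trans h2 ?_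
  rw [sq]
  have h3 : 0 ≤ ∑ u ∈ univ.filter (fun u => 8 * D.w < D.d u), D.d u :=
    sum_nonneg (fun u _ => D.d_nonneg u)
  exact mul_le_mul D.sum_big_d D.sum_big_d h3 (by have := D.I_nonneg; positivity)

theorem sum_U_pow {s : ℕ} (hs : 1 ≤ s) : ∑ v, D.U v ^ s ≤ (2 * D.I) ^ (s + 1) := by
  obtain ⟨t, rfl⟩ : ∃ t, s = t + 1 := ⟨s - 1, by omega⟩
  calc ∑ v, D.U v ^ (t + 1) ≤ ∑ v, (2 * D.I) ^ t * D.U v := by
        apply sum_le_sum
        intro v _
        rw [pow_succ]
        apply mul_le_mul_of_nonneg_right _ (D.U_nonneg v)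
        exact pow_le_pow_left₀ (D.U_nonneg v) (D.U_le_two v) t
    _ = (2 * D.I) ^ t * ∑ v, D.U v := by rw [mul_sum]
    _ ≤ (2 * D.I) ^ t * (2 * D.I) ^ 2 := by
        apply mul_le_mul_of_nonneg_left D.sum_U
        have := D.I_nonneg
        positivity
    _ = (2 * D.I) ^ (t + 1 + 1) := by ring

/-- the sharp bound for the part of `Z` coming from big neighbours -/
theorem U_sharp (v : X) {κ T : ℝ} (hκ : 0 < κ) (hT : 1 < T)
    (hL : D.w * (T - 1) ≤ Real.log (κ / D.p) - 1) :
    D.U v ≤ 2 * κ * D.I + 3 * D.I / Real.log T := by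
  have hlT : 0 < Real.log T := Real.log_pos hT
  have hI := D.I_nonneg
  have hL0 : 0 ≤ Real.log (κ / D.p) - 1 := le_trans (by
    have := D.w_nonneg
    have : 0 ≤ T - 1 := by linarith
    positivity) hL
  set S := univ.filter (fun u => 8 * D.w < D.d u) with hS
  unfold U
  rw [← hS, ← Finset.sum_filter_add_sum_filter_not S (fun u => D.x v u < κ)]
  have h1 : ∑ u ∈ S.filter (fun u => D.x v u < κ), D.x v u * D.d u ≤ 2 * κ * D.I := by
    calc ∑ u ∈ S.filter (fun u => D.x v u < κ), D.x v u * D.d u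
        ≤ ∑ u ∈ S.filter (fun u => D.x v u < κ), κ * D.d u := by
          apply sum_le_sum
          intro u hu
          rw [mem_filter] at hu
          exact mul_le_mul_of_nonneg_right hu.2.le (D.d_nonneg u)
      _ ≤ ∑ u ∈ S, κ * D.d u := by
          apply sum_le_sum_of_subset_of_nonneg (filter_subset _ _)
          intro u _ _
          have := D.d_nonneg u
          positivity
      _ = κ * ∑ u ∈ S, D.d u := by rw [mul_sum]
      _ ≤ κ * (2 * D.I) := mul_le_mul_of_nonneg_left D.sum_big_d hκ.le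
      _ = 2 * κ * D.I := by ring
  have h2 : ∑ u ∈ S.filter (fun u => ¬ D.x v u < κ), D.x v u * D.d u ≤ 3 * D.I / Real.log T := by
    rw [le_div_iff₀ hlT, sum_mul]
    set F := S.filter (fun u => ¬ D.x v u < κ) with hF
    have hmass : (∑ u ∈ F, D.x v u) * (Real.log (κ / D.p) - 1) ≤ D.I := by
      calc (∑ u ∈ F, D.x v u) * (Real.log (κ / D.p) - 1)
          = ∑ u ∈ F, D.x v u * (Real.log (κ / D.p) - 1) := by rw [sum_mul]
        _ ≤ ∑ u ∈ F, hh D.p (D.x v u) := by
            apply sum_le_sum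
            intro u hu
            rw [hF, mem_filter] at hu
            exact hh_mass D.hp hκ (not_lt.mp hu.2)
        _ ≤ ∑ u ∈ univ.erase v, hh D.p (D.x v u) := by
            apply sum_le_sum_of_subset_of_nonneg
            · intro u hu
              rw [hF, mem_filter] at hu
              rw [mem_erase]
              refine ⟨?_, mem_univ _⟩
              rintro rfl
              rw [D.hdiag u] at hu
              exact hu.2 hκ
            · intro u _ _
              exact hh_nonneg D.hp (D.hx0 v u)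
        _ ≤ D.A v := D.hA v
        _ ≤ D.I := D.hAI v
    have hmass0 : 0 ≤ ∑ u ∈ F, D.x v u := sum_nonneg (fun u _ => D.hx0 v u)
    calc ∑ u ∈ F, D.x v u * D.d u * Real.log T
        ≤ ∑ u ∈ F, (D.A u + D.x v u * (D.w * (T - 1))) := by
          apply sum_le_sum
          intro u _
          have h3 := D.tangent u hT.le
          have h4 : D.x v u * (D.d u * Real.log T) ≤ D.x v u * (D.A u + D.w * (T - 1)) :=
            mul_le_mul_of_nonneg_left h3 (D.hx0 v u)
          have h5 : D.x v u * D.A u ≤ 1 * D.A u :=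
            mul_le_mul_of_nonneg_right (D.hx1 v u) (D.A_nonneg u)
          nlinarith
      _ = ∑ u ∈ F, D.A u + (∑ u ∈ F, D.x v u) * (D.w * (T - 1)) := by
          rw [sum_add_distrib, sum_mul]
      _ ≤ 2 * D.I + (∑ u ∈ F, D.x v u) * (Real.log (κ / D.p) - 1) := by
          gcongr
          refine le_trans ?_ D.hAs
          apply sum_le_sum_of_subset_of_nonneg (subset_univ _)
          intro u _ _
          exact D.A_nonneg u
      _ ≤ 2 * D.I + D.I := by gcongr
      _ = 3 * D.I := by ring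
  exact add_le_add h1 h2

/-- the main deterministic estimate -/
theorem main {s : ℕ} (hs : 1 ≤ s) {T ℓ Dm κ T' M : ℝ} (hT : 1 ≤ T) (hℓ : 0 < ℓ)
    (hℓT : ℓ ≤ Real.log T - 1) (h1 : D.w * T ≤ Dm) (h2 : D.I ≤ Dm * ℓ)
    (hκ : 0 < κ) (hT' : 1 < T') (hL : D.w * (T' - 1) ≤ Real.log (κ / D.p) - 1)
    (hM : 8 * D.w * Dm + (2 * κ * D.I + 3 * D.I / Real.log T') ≤ M) :
    ∑ v, (D.d v * D.Z v) ^ s ≤ 2 * (M * Dm) ^ s + M ^ s * (D.w * T) ^ (s - 1) * (2 * D.I) +
      ((Fintype.card X : ℝ) * 1024 ^ s * D.w ^ (3 * s) + (16 * D.w) ^ s * (2 * D.I) ^ (s + 1)) := by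
  have hw := D.w_nonneg
  have hI := D.I_nonneg
  have hd : ∀ v, D.d v ≤ Dm := fun v => D.d_le hT hℓ hℓT h1 h2
  have hDm : 0 ≤ Dm := le_trans (by positivity) h1
  have hZ : ∀ v, D.Z v ≤ M := by
    intro v
    refine le_trans (D.Z_le v) (le_trans ?_ hM)
    have h3 := D.U_sharp v hκ hT' hL
    have h4 : 8 * D.w * D.d v ≤ 8 * D.w * Dm := by
      have := hd v
      gcongr
    linarith
  have hM0 : 0 ≤ M := by
    refine le_trans ?_ hM
    have : 0 < Real.log T' := Real.log_pos hT'
    positivity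
  obtain ⟨t, rfl⟩ : ∃ t, s = t + 1 := ⟨s - 1, by omega⟩
  simp only [Nat.add_sub_cancel]
  -- split into three classes
  have hsplit : ∑ v, (D.d v * D.Z v) ^ (t + 1) =
      ∑ v ∈ univ.filter (fun v => D.w * T < D.d v), (D.d v * D.Z v) ^ (t + 1) +
      (∑ v ∈ (univ.filter (fun v => ¬ D.w * T < D.d v)).filter (fun v => 8 * D.w < D.d v),
        (D.d v * D.Z v) ^ (t + 1) +
      ∑ v ∈ (univ.filter (fun v => ¬ D.w * T < D.d v)).filter (fun v => ¬ 8 * D.w < D.d v),
        (D.d v * D.Z v) ^ (t + 1)) := by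
    rw [Finset.sum_filter_add_sum_filter_not, Finset.sum_filter_add_sum_filter_not]
  rw [hsplit, add_assoc]
  -- high
  have hhigh : ∑ v ∈ univ.filter (fun v => D.w * T < D.d v), (D.d v * D.Z v) ^ (t + 1) ≤
      2 * (M * Dm) ^ (t + 1) := by
    have hstep : ∀ v ∈ univ.filter (fun v => D.w * T < D.d v),
        (D.d v * D.Z v) ^ (t + 1) ≤ M ^ (t + 1) * Dm ^ t * (D.A v / ℓ) := by
      intro v hv
      rw [mem_filter] at hv
      have h5 : D.d v ≤ D.A v / ℓ := by
        rw [le_div_iff₀ hℓ]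
        exact le_trans (mul_le_mul_of_nonneg_left hℓT (D.d_nonneg v)) (D.d_high hT hv.2)
      calc (D.d v * D.Z v) ^ (t + 1) = D.Z v ^ (t + 1) * D.d v ^ t * D.d v := by
            rw [mul_pow, pow_succ (D.d v)]
            ring
        _ ≤ M ^ (t + 1) * Dm ^ t * (D.A v / ℓ) := by
            have h6 := D.Z_nonneg v
            have h7 := D.d_nonneg v
            have h8 := hZ v
            have h9 := hd v
            gcongr
    calc ∑ v ∈ univ.filter (fun v => D.w * T < D.d v), (D.d v * D.Z v) ^ (t + 1)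
        ≤ ∑ v ∈ univ.filter (fun v => D.w * T < D.d v), M ^ (t + 1) * Dm ^ t * (D.A v / ℓ) :=
          sum_le_sum hstep
      _ ≤ ∑ v, M ^ (t + 1) * Dm ^ t * (D.A v / ℓ) := by
          apply sum_le_sum_of_subset_of_nonneg (filter_subset _ _)
          intro v _ _
          have := D.A_nonneg v
          positivity
      _ = M ^ (t + 1) * Dm ^ t * ((∑ v, D.A v) / ℓ) := by
          rw [← mul_sum, sum_div]
      _ ≤ M ^ (t + 1) * Dm ^ t * (2 * Dm) := by
          gcongr
          rw [div_le_iff₀ hℓ]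
          linarith [D.hAs]
      _ = 2 * (M * Dm) ^ (t + 1) := by
          rw [mul_pow, pow_succ Dm]
          ring
  -- middle
  have hmid : ∑ v ∈ (univ.filter (fun v => ¬ D.w * T < D.d v)).filter (fun v => 8 * D.w < D.d v),
      (D.d v * D.Z v) ^ (t + 1) ≤ M ^ (t + 1) * (D.w * T) ^ t * (2 * D.I) := by
    have hstep : ∀ v ∈ (univ.filter (fun v => ¬ D.w * T < D.d v)).filter
        (fun v => 8 * D.w < D.d v),
        (D.d v * D.Z v) ^ (t + 1) ≤ M ^ (t + 1) * (D.w * T) ^ t * D.A v := by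
      intro v hv
      rw [mem_filter, mem_filter] at hv
      have h5 : D.d v ≤ D.A v := D.d_le_A hv.2
      have h6 : D.d v ≤ D.w * T := not_lt.mp hv.1.2
      calc (D.d v * D.Z v) ^ (t + 1) = D.Z v ^ (t + 1) * D.d v ^ t * D.d v := by
            rw [mul_pow, pow_succ (D.d v)]
            ring
        _ ≤ M ^ (t + 1) * (D.w * T) ^ t * D.A v := by
            have h6 := D.Z_nonneg v
            have h7 := D.d_nonneg v
            have h8 := hZ v
            gcongr
    calc _ ≤ ∑ v ∈ (univ.filter (fun v => ¬ D.w * T < D.d v)).filter (fun v => 8 * D.w < D.d v),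
          M ^ (t + 1) * (D.w * T) ^ t * D.A v := sum_le_sum hstep
      _ ≤ ∑ v, M ^ (t + 1) * (D.w * T) ^ t * D.A v := by
          apply sum_le_sum_of_subset_of_nonneg (subset_univ _)
          intro v _ _
          have := D.A_nonneg v
          positivity
      _ = M ^ (t + 1) * (D.w * T) ^ t * ∑ v, D.A v := by rw [← mul_sum]
      _ ≤ M ^ (t + 1) * (D.w * T) ^ t * (2 * D.I) := by
          have := D.hAs
          gcongr
  -- low
  have hlow : ∑ v ∈ (univ.filter (fun v => ¬ D.w * T < D.d v)).filter (fun v => ¬ 8 * D.w < D.d v),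
      (D.d v * D.Z v) ^ (t + 1) ≤ (Fintype.card X : ℝ) * 1024 ^ (t + 1) * D.w ^ (3 * (t + 1)) +
        (16 * D.w) ^ (t + 1) * (2 * D.I) ^ (t + 1 + 1) := by
    have hstep : ∀ v ∈ (univ.filter (fun v => ¬ D.w * T < D.d v)).filter
        (fun v => ¬ 8 * D.w < D.d v),
        (D.d v * D.Z v) ^ (t + 1) ≤
          1024 ^ (t + 1) * D.w ^ (3 * (t + 1)) + (16 * D.w) ^ (t + 1) * D.U v ^ (t + 1) := by
      intro v hv
      rw [mem_filter, mem_filter] at hv
      have h5 : D.d v ≤ 8 * D.w := not_lt.mp hv.2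
      have h6 : D.Z v ≤ 64 * D.w ^ 2 + D.U v := by
        have := D.Z_le v
        nlinarith
      have h7 := D.d_nonneg v
      have h8 := D.Z_nonneg v
      have h9 := D.U_nonneg v
      have h10 : (64 * D.w ^ 2 + D.U v) ^ (t + 1) ≤
          2 ^ (t + 1) * ((64 * D.w ^ 2) ^ (t + 1) + D.U v ^ (t + 1)) := by
        have h11 : 64 * D.w ^ 2 + D.U v ≤ 2 * max (64 * D.w ^ 2) (D.U v) := by
          have := le_max_left (64 * D.w ^ 2) (D.U v)
          have := le_max_right (64 * D.w ^ 2) (D.U v)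
          linarith
        calc (64 * D.w ^ 2 + D.U v) ^ (t + 1)
            ≤ (2 * max (64 * D.w ^ 2) (D.U v)) ^ (t + 1) :=
              pow_le_pow_left₀ (by positivity) h11 _
          _ = 2 ^ (t + 1) * (max (64 * D.w ^ 2) (D.U v)) ^ (t + 1) := by rw [mul_pow]
          _ ≤ 2 ^ (t + 1) * ((64 * D.w ^ 2) ^ (t + 1) + D.U v ^ (t + 1)) := by
              apply mul_le_mul_of_nonneg_left _ (by positivity)
              rcases max_cases (64 * D.w ^ 2) (D.U v) with ⟨h, _⟩ | ⟨h, _⟩
              · rw [h]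
                have : 0 ≤ D.U v ^ (t + 1) := by positivity
                linarith
              · rw [h]
                have : 0 ≤ (64 * D.w ^ 2) ^ (t + 1) := by positivity
                linarith
      calc (D.d v * D.Z v) ^ (t + 1) = D.d v ^ (t + 1) * D.Z v ^ (t + 1) := mul_pow _ _ _
        _ ≤ (8 * D.w) ^ (t + 1) * (64 * D.w ^ 2 + D.U v) ^ (t + 1) := by gcongr
        _ ≤ (8 * D.w) ^ (t + 1) *
            (2 ^ (t + 1) * ((64 * D.w ^ 2) ^ (t + 1) + D.U v ^ (t + 1))) := by gcongr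
        _ = 1024 ^ (t + 1) * D.w ^ (3 * (t + 1)) + (16 * D.w) ^ (t + 1) * D.U v ^ (t + 1) := by
            have e1 : D.w ^ (3 * (t + 1)) = D.w ^ (t + 1) * (D.w ^ 2) ^ (t + 1) := by
              rw [← pow_mul, ← pow_add]
              congr 1
              ring
            have e2 : (1024 : ℝ) ^ (t + 1) = 8 ^ (t + 1) * 2 ^ (t + 1) * 64 ^ (t + 1) := by
              rw [← mul_pow, ← mul_pow]
              norm_num
            have e3 : (16 : ℝ) ^ (t + 1) = 8 ^ (t + 1) * 2 ^ (t + 1) := by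
              rw [← mul_pow]
              norm_num
            rw [e1, e2, mul_pow 8 D.w, mul_pow 64 (D.w ^ 2), mul_pow 16 D.w, e3]
            ring
    calc _ ≤ ∑ v ∈ (univ.filter (fun v => ¬ D.w * T < D.d v)).filter (fun v => ¬ 8 * D.w < D.d v),
          (1024 ^ (t + 1) * D.w ^ (3 * (t + 1)) + (16 * D.w) ^ (t + 1) * D.U v ^ (t + 1)) :=
          sum_le_sum hstep
      _ ≤ ∑ v, (1024 ^ (t + 1) * D.w ^ (3 * (t + 1)) + (16 * D.w) ^ (t + 1) * D.U v ^ (t + 1)) := by
          apply sum_le_sum_of_subset_of_nonneg (subset_univ _)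
          intro v _ _
          have := D.U_nonneg v
          positivity
      _ = (Fintype.card X : ℝ) * 1024 ^ (t + 1) * D.w ^ (3 * (t + 1)) +
          (16 * D.w) ^ (t + 1) * ∑ v, D.U v ^ (t + 1) := by
          rw [sum_add_distrib, sum_const, nsmul_eq_mul, card_univ, ← mul_sum]
          ring
      _ ≤ _ := by
          have := D.sum_U_pow (s := t + 1) (by omega)
          gcongr
  linarith

end Data

end Pool.Agent.Q221.MeanField
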