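import Mathlib.Combinatorics.SimpleGraph.Subgraph
import Mathlib.Combinatorics.SimpleGraph.Finite
import Mathlib.Analysis.SpecialFunctions.Log.Basic
import Mathlib.Tactic
import Pool.Agent.Q221.MeanField.Cost

/-!
# Definitions for the mean-field problem, and expectations over product measures
-/

set_option autoImplicit false

namespace Pool.Agent.Q221.MeanField

open Finset

/-- the pairs of distinct elements of `[n]` -/
def pairs (n : ℕ) : Finset (Sym2 (Fin n)) := univ.filter (fun e => ¬ e.IsDiag)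

/-- expectation under the product measure `μ_ξ` on graphs on `[n]`: each pair `e` is an edge
independently with probability `ξ e` -/
noncomputable def mean (n : ℕ) (ξ : Sym2 (Fin n) → ℝ) (f : SimpleGraph (Fin n) → ℝ) : ℝ :=
  ∑ S ∈ (pairs n).powerset, (∏ e ∈ S, ξ e) * (∏ e ∈ pairs n \ S, (1 - ξ e)) *
    f (SimpleGraph.fromEdgeSet (S : Set (Sym2 (Fin n))))

/-- `N(H,G)`, the number of injective maps sending edges of `H` to edges of `G` -/
noncomputable def copies {V : Type} (H : SimpleGraph V) {n : ℕ} (G : SimpleGraph (Fin n)) : ℕ :=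
  Nat.card {f : V → Fin n // Function.Injective f ∧ ∀ u v, H.Adj u v → G.Adj (f u) (f v)}

/-- the relative entropy `I_p(x)` -/
noncomputable def relEnt (p x : ℝ) : ℝ :=
  x * Real.log (x / p) + (1 - x) * Real.log ((1 - x) / (1 - p))

/-- the mean-field variational problem `Ψ_{p,H}(δ)` on `n` vertices -/
noncomputable def Psi {V : Type} (H : SimpleGraph V) (n : ℕ) (p δ : ℝ) : ℝ :=
  sInf {y : ℝ | ∃ ξ : Sym2 (Fin n) → ℝ, (∀ e, 0 ≤ ξ e ∧ ξ e ≤ 1) ∧
    (1 + δ) * mean n (fun _ => p) (fun G => (copies H G : ℝ)) ≤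
      mean n ξ (fun G => (copies H G : ℝ)) ∧
    y = ∑ e ∈ pairs n, relEnt p (ξ e)}

open Classical in
/-- the probability that `N(H, G(n,p)) ≥ x` -/
noncomputable def upper {V : Type} (H : SimpleGraph V) (n : ℕ) (p x : ℝ) : ℝ :=
  mean n (fun _ => p) (fun G => if x ≤ (copies H G : ℝ) then 1 else 0)

/-- `e_J / v_J < e_H / v_H` for every proper subgraph `J` with at least one vertex -/
def StrictlyBalanced {V : Type} [Fintype V] (H : SimpleGraph V) : Prop :=
  ∀ J : H.Subgraph, J ≠ ⊤ → J.verts.Nonempty →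
    (J.edgeSet.ncard : ℝ) / (J.verts.ncard : ℝ) < (H.edgeSet.ncard : ℝ) / (Fintype.card V : ℝ)

/-- the fractional independence number -/
noncomputable def fracIndep {V : Type} [Fintype V] (H : SimpleGraph V) : ℝ :=
  sSup {x : ℝ | ∃ α : V → ℝ, (∀ v, 0 ≤ α v ∧ α v ≤ 1) ∧ (∀ u v, H.Adj u v → α u + α v ≤ 1) ∧
    x = ∑ v, α v}

/-- the maximum degree -/
noncomputable def maxDeg {V : Type} [Fintype V] (H : SimpleGraph V) : ℕ :=
  univ.sup (fun v => (H.neighborSet v).ncard)

section exg

variable {E : Type*} [DecidableEq E]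

/-- expectation over a random subset of `s` containing `e` with probability `ξ e` -/
noncomputable def exg (s : Finset E) (ξ : E → ℝ) (f : Finset E → ℝ) : ℝ :=
  ∑ S ∈ s.powerset, (∏ e ∈ S, ξ e) * (∏ e ∈ s \ S, (1 - ξ e)) * f S

theorem mean_eq (n : ℕ) (ξ : Sym2 (Fin n) → ℝ) (f : SimpleGraph (Fin n) → ℝ) :
    mean n ξ f = exg (pairs n) ξ
      (fun S => f (SimpleGraph.fromEdgeSet (S : Set (Sym2 (Fin n))))) := rfl

theorem exg_wt_nonneg {s : Finset E} {ξ : E → ℝ} (h : ∀ e, 0 ≤ ξ e ∧ ξ e ≤ 1) (S : Finset E) :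
    0 ≤ (∏ e ∈ S, ξ e) * (∏ e ∈ s \ S, (1 - ξ e)) :=
  mul_nonneg (prod_nonneg (fun e _ => (h e).1))
    (prod_nonneg (fun e _ => by linarith [(h e).2]))

theorem exg_mono {s : Finset E} {ξ : E → ℝ} (h : ∀ e, 0 ≤ ξ e ∧ ξ e ≤ 1) {f g : Finset E → ℝ}
    (hfg : ∀ S ∈ s.powerset, f S ≤ g S) : exg s ξ f ≤ exg s ξ g :=
  sum_le_sum (fun S hS => mul_le_mul_of_nonneg_left (hfg S hS) (exg_wt_nonneg h S))

theorem exg_sum {ι : Type*} (s : Finset E) (ξ : E → ℝ) (t : Finset ι) (f : ι → Finset E → ℝ) :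
    exg s ξ (fun S => ∑ i ∈ t, f i S) = ∑ i ∈ t, exg s ξ (f i) := by
  unfold exg
  rw [sum_comm]
  apply sum_congr rfl
  intro S _
  rw [mul_sum]

/-- the probability of a cylinder event -/
theorem exg_cyl (s F F' : Finset E) (ξ : E → ℝ) (hF : F ⊆ s) (hF' : F' ⊆ s)
    (hd : Disjoint F F') :
    exg s ξ (fun S => if F ⊆ S ∧ Disjoint F' S then 1 else 0) =
      (∏ e ∈ F, ξ e) * ∏ e ∈ F', (1 - ξ e) := by
  have key : ∀ S ∈ s.powerset, (∏ e ∈ S, ξ e) * (∏ e ∈ s \ S, (1 - ξ e)) *
      (if F ⊆ S ∧ Disjoint F' S then (1 : ℝ) else 0) =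
      (∏ e ∈ S, (if e ∈ F' then 0 else ξ e)) *
        ∏ e ∈ s \ S, (if e ∈ F then 0 else (1 - ξ e)) := by
    intro S hS
    rw [mem_powerset] at hS
    by_cases h : F ⊆ S ∧ Disjoint F' S
    · rw [if_pos h, mul_one]
      congr 1
      · apply prod_congr rfl
        intro e he
        rw [if_neg]
        intro he'
        exact (disjoint_left.mp h.2 he') he
      · apply prod_congr rfl
        intro e he
        rw [mem_sdiff] at he
        rw [if_neg]
        intro he'
        exact he.2 (h.1 he')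
    · rw [if_neg h, mul_zero]
      symm
      rw [not_and_or] at h
      rcases h with h | h
      · rw [subset_iff] at h
        push Not at h
        obtain ⟨e, he, heS⟩ := h
        have : ∏ e ∈ s \ S, (if e ∈ F then 0 else (1 - ξ e)) = 0 :=
          prod_eq_zero (mem_sdiff.mpr ⟨hF he, heS⟩) (by rw [if_pos he])
        rw [this, mul_zero]
      · rw [disjoint_left] at h
        push Not at h
        obtain ⟨e, he, heS⟩ := h
        have : ∏ e ∈ S, (if e ∈ F' then 0 else ξ e) = 0 :=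
          prod_eq_zero heS (by rw [if_pos he])
        rw [this, zero_mul]
  unfold exg
  rw [sum_congr rfl key, ← prod_add]
  have hsplit : ∀ e ∈ s, ((if e ∈ F' then 0 else ξ e) + (if e ∈ F then 0 else (1 - ξ e))) =
      (if e ∈ F then ξ e else 1) * (if e ∈ F' then (1 - ξ e) else 1) := by
    intro e _
    by_cases h1 : e ∈ F
    · have h2 : e ∉ F' := disjoint_left.mp hd h1
      simp [h1, h2]
    · by_cases h2 : e ∈ F'
      · simp [h1, h2]
      · simp [h1, h2]
  rw [prod_congr rfl hsplit, prod_mul_distrib, prod_ite, prod_ite]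
  simp only [prod_const_one, mul_one]
  congr 1
  · apply prod_congr _ (fun _ _ => rfl)
    ext e
    rw [mem_filter]
    exact ⟨fun h => h.2, fun h => ⟨hF h, h⟩⟩
  · apply prod_congr _ (fun _ _ => rfl)
    ext e
    rw [mem_filter]
    exact ⟨fun h => h.2, fun h => ⟨hF' h, h⟩⟩

theorem exg_sub (s F : Finset E) (ξ : E → ℝ) (hF : F ⊆ s) :
    exg s ξ (fun S => if F ⊆ S then 1 else 0) = ∏ e ∈ F, ξ e := by
  have := exg_cyl s F ∅ ξ hF (empty_subset _) (disjoint_empty_right _)
  simpa using this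

end exg

theorem relEnt_ge {p x : ℝ} (hp1 : p < 1) (hx0 : 0 ≤ x) (hx1 : x ≤ 1) :
    hh p x ≤ relEnt p x := by
  unfold hh relEnt
  rcases hx1.eq_or_lt with h | h
  · subst h
    simp
    linarith
  · have hu : 0 < (1 - x) / (1 - p) := div_pos (by linarith) (by linarith)
    have h1 := Real.one_sub_inv_le_log_of_pos hu
    have h2 : (1 - x) * (1 - ((1 - x) / (1 - p))⁻¹) ≤ (1 - x) * Real.log ((1 - x) / (1 - p)) :=
      mul_le_mul_of_nonneg_left h1 (by linarith)
    have h3 : (1 - x) * (1 - ((1 - x) / (1 - p))⁻¹) = p - x := by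
      have : (1 - x) ≠ 0 := by linarith
      have : (1 - p) ≠ 0 := by linarith
      field_simp
      ring
    rw [h3] at h2
    linarith

open Classical in
theorem copies_card {V : Type} [Fintype V] (H : SimpleGraph V) {n : ℕ} (G : SimpleGraph (Fin n)) :
    copies H G = (univ.filter (fun f : V → Fin n => Function.Injective f ∧
      ∀ u v, H.Adj u v → G.Adj (f u) (f v))).card := by
  unfold copies
  rw [Nat.card_eq_fintype_card, Fintype.card_subtype]

end Pool.Agent.Q221.MeanField
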