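import Mathlib.Combinatorics.SimpleGraph.Subgraph
import Mathlib.Tactic
import Pool.Agent.Q221.MeanField.Defs

/-!
# The spider: a centre with `s` legs of length one and `s` legs of length two
-/

set_option autoImplicit false

namespace Pool.Agent.Q221.MeanField

open Finset

/-- vertices of the spider -/
abbrev VV (s : ℕ) : Type := Option (Fin s ⊕ (Fin s ⊕ Fin s))

/-- the parent of a non-central vertex -/
def par {s : ℕ} : Fin s ⊕ (Fin s ⊕ Fin s) → VV s
  | Sum.inl _ => none
  | Sum.inr (Sum.inl i) => some (Sum.inl i)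
  | Sum.inr (Sum.inr _) => none

/-- distance to the centre -/
def rk {s : ℕ} : VV s → ℕ
  | none => 0
  | some (Sum.inl _) => 1
  | some (Sum.inr (Sum.inl _)) => 2
  | some (Sum.inr (Sum.inr _)) => 1

theorem rk_par {s : ℕ} (x : Fin s ⊕ (Fin s ⊕ Fin s)) : rk (some x) = rk (par x) + 1 := by
  rcases x with i | i | i <;> rfl

/-- the spider: centre `none`, vertices `c_i` (`inl i`) and `c'_i` (`inr (inr i)`) adjacent to the
centre, and `e_i` (`inr (inl i)`) adjacent to `c_i` -/
def spider (s : ℕ) : SimpleGraph (VV s) where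
  Adj u v := ∃ x, (u = some x ∧ v = par x) ∨ (v = some x ∧ u = par x)
  symm := ⟨by
    rintro u v ⟨x, h⟩
    exact ⟨x, h.symm⟩⟩
  loopless := ⟨by
    rintro u ⟨x, h | h⟩
    · have h1 := rk_par x
      rw [← h.1, ← h.2] at h1
      omega
    · have h1 := rk_par x
      rw [← h.1, ← h.2] at h1
      omega⟩

theorem spider_adj {s : ℕ} (x : Fin s ⊕ (Fin s ⊕ Fin s)) : (spider s).Adj (some x) (par x) :=
  ⟨x, Or.inl ⟨rfl, rfl⟩⟩

theorem ed_inj {s : ℕ} : Function.Injective
    (fun x : Fin s ⊕ (Fin s ⊕ Fin s) => s(some x, par x)) := by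
  intro x y h
  simp only [Sym2.eq_iff] at h
  rcases h with h | h
  · exact Option.some.inj h.1
  · have h1 := rk_par x
    have h2 := rk_par y
    rw [← h.2] at h2
    rw [h.1] at h1
    omega

theorem card_VV (s : ℕ) : Fintype.card (VV s) = 3 * s + 1 := by
  simp [VV]
  ring

theorem edgeSet_sub {s : ℕ} (J : (spider s).Subgraph) :
    J.edgeSet = (fun x : Fin s ⊕ (Fin s ⊕ Fin s) => s(some x, par x)) ''
      {x | J.Adj (some x) (par x)} := by
  ext e
  induction e using Sym2.ind with
  | _ u v =>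
    rw [SimpleGraph.Subgraph.mem_edgeSet, Set.mem_image]
    constructor
    · intro h
      obtain ⟨x, hx | hx⟩ := J.adj_sub h
      · exact ⟨x, by rw [hx.1, hx.2] at h; exact h, by rw [hx.1, hx.2]⟩
      · refine ⟨x, ?_, ?_⟩
        · rw [hx.1, hx.2] at h
          exact h.symm
        · rw [hx.1, hx.2]
          exact Sym2.eq_swap
    · rintro ⟨x, hx, he⟩
      have hx' : J.Adj (some x) (par x) := hx
      rw [← SimpleGraph.Subgraph.mem_edgeSet] at hx' ⊢
      rw [← he]
      exact hx'

theorem ncard_edgeSet {s : ℕ} (J : (spider s).Subgraph) :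
    J.edgeSet.ncard = {x : Fin s ⊕ (Fin s ⊕ Fin s) | J.Adj (some x) (par x)}.ncard := by
  rw [edgeSet_sub, Set.ncard_image_of_injective _ ed_inj]

theorem ncard_top (s : ℕ) : (spider s).edgeSet.ncard = 3 * s := by
  rw [← SimpleGraph.Subgraph.edgeSet_top, ncard_edgeSet]
  have : {x : Fin s ⊕ (Fin s ⊕ Fin s) | (⊤ : (spider s).Subgraph).Adj (some x) (par x)} =
      Set.univ := by
    ext x
    simp only [Set.mem_univ, iff_true]
    exact spider_adj x
  rw [this, Set.ncard_univ, Nat.card_eq_fintype_card]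
  simp
  ring

theorem ncard_lt {s : ℕ} (J : (spider s).Subgraph) (hJ : J.verts.Nonempty) :
    J.edgeSet.ncard + 1 ≤ J.verts.ncard := by
  obtain ⟨m, hm, hmin⟩ := Set.exists_min_image J.verts rk (Set.toFinite _) hJ
  rw [ncard_edgeSet]
  have h1 : (some '' {x : Fin s ⊕ (Fin s ⊕ Fin s) | J.Adj (some x) (par x)}) ⊆ J.verts \ {m} := by
    rintro y ⟨x, hx, rfl⟩
    have hx' : J.Adj (some x) (par x) := hx
    refine ⟨J.edge_vert hx', ?_⟩
    intro h
    have h2 := hmin (par x) (J.edge_vert hx'.symm)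
    rw [Set.mem_singleton_iff] at h
    rw [← h, rk_par] at h2
    omega
  have h2 := Set.ncard_le_ncard h1 (Set.toFinite _)
  rw [Set.ncard_image_of_injective _ (Option.some_injective _)] at h2
  have h3 := Set.ncard_sdiff_singleton_add_one hm (Set.toFinite _)
  omega

theorem strictlyBalanced (s : ℕ) : StrictlyBalanced (spider s) := by
  intro J hJ hne
  have h1 := ncard_lt J hne
  rw [ncard_top, card_VV]
  have hv : (0 : ℝ) < J.verts.ncard := by
    have : 0 < J.verts.ncard := by omega
    exact_mod_cast this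
  by_cases hall : J.verts = Set.univ
  · have hcard : J.verts.ncard = 3 * s + 1 := by
      rw [hall, Set.ncard_univ, Nat.card_eq_fintype_card, card_VV]
    rw [hcard]
    have hlt : J.edgeSet.ncard < 3 * s := by
      rw [ncard_edgeSet, ← ncard_top, ← SimpleGraph.Subgraph.edgeSet_top, ncard_edgeSet]
      apply Set.ncard_lt_ncard _ (Set.toFinite _)
      refine ⟨fun x _ => spider_adj x, ?_⟩
      intro hsub
      apply hJ
      apply SimpleGraph.Subgraph.ext
      · rw [hall]
        rfl
      · ext u v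
        constructor
        · intro h
          exact J.adj_sub h
        · intro h
          obtain ⟨x, hx | hx⟩ := h
          · rw [hx.1, hx.2]
            exact hsub (spider_adj x)
          · rw [hx.1, hx.2]
            exact (hsub (spider_adj x) : J.Adj (some x) (par x)).symm
    apply div_lt_div_of_pos_right
    · exact_mod_cast hlt
    · positivity
  · have hlt : J.verts.ncard < 3 * s + 1 := by
      rw [← card_VV, ← Nat.card_eq_fintype_card, ← Set.ncard_univ]
      apply Set.ncard_lt_ncard _ (Set.toFinite _)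
      exact Set.ssubset_univ_iff.mpr hall
    rw [div_lt_div_iff₀ hv (by positivity)]
    have h2 : (J.edgeSet.ncard : ℝ) + 1 ≤ J.verts.ncard := by exact_mod_cast h1
    have h3 : (J.verts.ncard : ℝ) < 3 * s + 1 := by exact_mod_cast hlt
    push_cast
    have h4 : (0 : ℝ) ≤ J.edgeSet.ncard := by positivity
    have h5 : (0 : ℝ) ≤ s := by positivity
    nlinarith

theorem two_le_maxDeg {s : ℕ} (hs : 1 ≤ s) : 2 ≤ maxDeg (spider s) := by
  have h : ((spider s).neighborSet none).ncard ≤ maxDeg (spider s) := by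
    unfold maxDeg
    exact Finset.le_sup (f := fun v => ((spider s).neighborSet v).ncard) (mem_univ _)
  refine le_trans ?_ h
  let i : Fin s := ⟨0, by omega⟩
  have hsub : ({some (Sum.inl i), some (Sum.inr (Sum.inr i))} : Set (VV s)) ⊆
      (spider s).neighborSet none := by
    intro y hy
    rw [SimpleGraph.mem_neighborSet]
    rcases hy with rfl | hy
    · exact ⟨Sum.inl i, Or.inr ⟨rfl, rfl⟩⟩
    · rw [Set.mem_singleton_iff] at hy
      subst hy
      exact ⟨Sum.inr (Sum.inr i), Or.inr ⟨rfl, rfl⟩⟩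
  have h2 := Set.ncard_le_ncard hsub (Set.toFinite _)
  rw [Set.ncard_pair] at h2
  · exact h2
  · intro h
    have := Option.some.inj h
    exact absurd this (by simp)

theorem one_lt_fracIndep {s : ℕ} (hs : 1 ≤ s) : 1 < fracIndep (spider s) := by
  have hmem : ((3 * s + 1 : ℕ) : ℝ) * (1 / 2) ∈ {x : ℝ | ∃ α : VV s → ℝ,
      (∀ v, 0 ≤ α v ∧ α v ≤ 1) ∧ (∀ u v, (spider s).Adj u v → α u + α v ≤ 1) ∧
      x = ∑ v, α v} := by
    refine ⟨fun _ => 1 / 2, fun v => by norm_num, fun u v _ => by norm_num, ?_⟩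
    rw [sum_const, card_univ, card_VV, nsmul_eq_mul]
  have hb : BddAbove {x : ℝ | ∃ α : VV s → ℝ,
      (∀ v, 0 ≤ α v ∧ α v ≤ 1) ∧ (∀ u v, (spider s).Adj u v → α u + α v ≤ 1) ∧
      x = ∑ v, α v} := by
    refine ⟨((3 * s + 1 : ℕ) : ℝ), ?_⟩
    rintro x ⟨α, h1, _, rfl⟩
    calc ∑ v, α v ≤ ∑ v : VV s, (1 : ℝ) := sum_le_sum (fun v _ => (h1 v).2)
      _ = ((3 * s + 1 : ℕ) : ℝ) := by
        rw [sum_const, card_univ, card_VV, nsmul_eq_mul, mul_one]
  have h1 := le_csSup hb hmem
  unfold fracIndep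
  refine lt_of_lt_of_le ?_ h1
  have h2 : (4 : ℝ) ≤ ((3 * s + 1 : ℕ) : ℝ) := by exact_mod_cast (by omega : 4 ≤ 3 * s + 1)
  linarith

end Pool.Agent.Q221.MeanField
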