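import Mathlib.Tactic
import Pool.Agent.Q221.MeanField.Tree

/-!
# The expected number of copies of the spider under a product measure
-/

set_option autoImplicit false

namespace Pool.Agent.Q221.MeanField

open Finset

/-- the pairs used by a map of the spider -/
def img {s n : ℕ} (f : VV s → Fin n) : Finset (Sym2 (Fin n)) :=
  univ.image (fun x : Fin s ⊕ (Fin s ⊕ Fin s) => s(f (some x), f (par x)))

theorem img_subset {s n : ℕ} {f : VV s → Fin n} (hf : Function.Injective f) :
    img f ⊆ pairs n := by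
  intro e he
  unfold img at he
  rw [mem_image] at he
  obtain ⟨x, _, rfl⟩ := he
  unfold pairs
  rw [mem_filter]
  refine ⟨mem_univ _, ?_⟩
  rw [Sym2.mk_isDiag_iff]
  intro h
  exact (spider_adj x).ne (hf h)

theorem hom_iff {s n : ℕ} {f : VV s → Fin n} (hf : Function.Injective f)
    (S : Finset (Sym2 (Fin n))) :
    (∀ u v, (spider s).Adj u v →
      (SimpleGraph.fromEdgeSet (S : Set (Sym2 (Fin n)))).Adj (f u) (f v)) ↔ img f ⊆ S := by
  constructor
  · intro h e he
    unfold img at he
    rw [mem_image] at he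
    obtain ⟨x, _, rfl⟩ := he
    have := h _ _ (spider_adj x)
    rw [SimpleGraph.fromEdgeSet_adj] at this
    exact_mod_cast this.1
  · intro h u v huv
    rw [SimpleGraph.fromEdgeSet_adj]
    refine ⟨?_, fun h' => huv.ne (hf h')⟩
    obtain ⟨x, hx | hx⟩ := huv
    · rw [hx.1, hx.2]
      have : s(f (some x), f (par x)) ∈ img f := mem_image_of_mem _ (mem_univ x)
      exact_mod_cast h this
    · rw [hx.1, hx.2, Sym2.eq_swap]
      have : s(f (some x), f (par x)) ∈ img f := mem_image_of_mem _ (mem_univ x)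
      exact_mod_cast h this

open Classical in
theorem mean_copies {s n : ℕ} (ξ : Sym2 (Fin n) → ℝ) :
    mean n ξ (fun G => (copies (spider s) G : ℝ)) =
      ∑ f ∈ univ.filter (fun f : VV s → Fin n => Function.Injective f), ∏ e ∈ img f, ξ e := by
  rw [mean_eq]
  have h1 : ∀ S ∈ (pairs n).powerset,
      ((copies (spider s) (SimpleGraph.fromEdgeSet (S : Set (Sym2 (Fin n)))) : ℕ) : ℝ) =
      ∑ f ∈ univ.filter (fun f : VV s → Fin n => Function.Injective f),
        (if img f ⊆ S then (1 : ℝ) else 0) := by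
    intro S _
    rw [copies_card, sum_boole, filter_filter]
    congr 1
    apply congrArg
    ext f
    simp only [mem_filter, mem_univ, true_and]
    constructor
    · rintro ⟨h1, h2⟩
      exact ⟨h1, (hom_iff h1 S).mp h2⟩
    · rintro ⟨h1, h2⟩
      exact ⟨h1, (hom_iff h1 S).mpr h2⟩
  unfold exg
  have h0 : ∀ S ∈ (pairs n).powerset, (∏ e ∈ S, ξ e) * (∏ e ∈ pairs n \ S, (1 - ξ e)) *
      ((copies (spider s) (SimpleGraph.fromEdgeSet (S : Set (Sym2 (Fin n)))) : ℕ) : ℝ) =
      (∏ e ∈ S, ξ e) * (∏ e ∈ pairs n \ S, (1 - ξ e)) *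
      ∑ f ∈ univ.filter (fun f : VV s → Fin n => Function.Injective f),
        (if img f ⊆ S then (1 : ℝ) else 0) := by
    intro S hS
    rw [h1 S hS]
  rw [sum_congr rfl h0]
  have h2 := exg_sum (pairs n) ξ (univ.filter (fun f : VV s → Fin n => Function.Injective f))
    (fun f S => if img f ⊆ S then (1 : ℝ) else 0)
  unfold exg at h2
  rw [h2]
  apply sum_congr rfl
  intro f hf
  rw [mem_filter] at hf
  have h3 := exg_sub (pairs n) (img f) ξ (img_subset hf.2)
  unfold exg at h3
  exact h3

/-- the weight matrix attached to `ξ` -/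
noncomputable def wm {n : ℕ} (ξ : Sym2 (Fin n) → ℝ) (u v : Fin n) : ℝ :=
  if u = v then 0 else ξ s(u, v)

theorem wm_symm {n : ℕ} (ξ : Sym2 (Fin n) → ℝ) (u v : Fin n) : wm ξ u v = wm ξ v u := by
  unfold wm
  by_cases h : u = v
  · rw [if_pos h, if_pos h.symm]
  · rw [if_neg h, if_neg (fun h' => h h'.symm), Sym2.eq_swap]

/-- splitting a map of the spider -/
def splitE (s : ℕ) (X : Type) :
    (VV s → X) ≃ X × ((Fin s → X) × ((Fin s → X) × (Fin s → X))) where
  toFun f := (f none, fun i => f (some (Sum.inl i)), fun i => f (some (Sum.inr (Sum.inl i))),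
    fun i => f (some (Sum.inr (Sum.inr i))))
  invFun t := fun o => match o with
    | none => t.1
    | some (Sum.inl i) => t.2.1 i
    | some (Sum.inr (Sum.inl i)) => t.2.2.1 i
    | some (Sum.inr (Sum.inr i)) => t.2.2.2 i
  left_inv f := by
    funext o
    rcases o with _ | i | i | i <;> rfl
  right_inv t := rfl

theorem sum_pow_pi {s : ℕ} {X : Type} [Fintype X] (g : X → ℝ) :
    ∑ c : Fin s → X, ∏ i, g (c i) = (∑ u, g u) ^ s := by
  have h := Finset.prod_univ_sum (fun _ : Fin s => (univ : Finset X)) (fun _ u => g u)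
  rw [Fintype.piFinset_univ] at h
  rw [← h, prod_const, card_univ, Fintype.card_fin]

theorem sum_pi_gen {s : ℕ} {X : Type} [Fintype X] (g : Fin s → X → ℝ) :
    ∑ c : Fin s → X, ∏ i, g i (c i) = ∏ i, ∑ u, g i u := by
  have h := Finset.prod_univ_sum (fun _ : Fin s => (univ : Finset X)) (fun i u => g i u)
  rw [Fintype.piFinset_univ] at h
  rw [← h]

theorem sum_maps {s n : ℕ} (x : Fin n → Fin n → ℝ) (hx : ∀ u v, x u v = x v u) :
    ∑ f : VV s → Fin n, ∏ y : Fin s ⊕ (Fin s ⊕ Fin s), x (f (some y)) (f (par y)) =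
      ∑ b, ((∑ u, x b u) * ∑ u, x b u * ∑ v, x u v) ^ s := by
  rw [← Equiv.sum_comp (splitE s (Fin n)).symm]
  have h1 : ∀ t : Fin n × ((Fin s → Fin n) × ((Fin s → Fin n) × (Fin s → Fin n))),
      ∏ y : Fin s ⊕ (Fin s ⊕ Fin s), x ((splitE s (Fin n)).symm t (some y))
        ((splitE s (Fin n)).symm t (par y)) =
      (∏ i, x t.1 (t.2.1 i)) * ((∏ i, x (t.2.1 i) (t.2.2.1 i)) * ∏ i, x t.1 (t.2.2.2 i)) := by
    intro t
    rw [Fintype.prod_sum_type, Fintype.prod_sum_type]
    congr 1
    · apply prod_congr rfl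
      intro i _
      exact hx _ _
    · congr 1
      · apply prod_congr rfl
        intro i _
        exact hx _ _
      · apply prod_congr rfl
        intro i _
        exact hx _ _
  rw [sum_congr rfl (fun t _ => h1 t), Fintype.sum_prod_type]
  apply sum_congr rfl
  intro b _
  rw [Fintype.sum_prod_type]
  have h2 : ∀ c : Fin s → Fin n, ∑ t : (Fin s → Fin n) × (Fin s → Fin n),
      (∏ i, x b (c i)) * ((∏ i, x (c i) (t.1 i)) * ∏ i, x b (t.2 i)) =
      (∏ i, x b (c i) * ∑ v, x (c i) v) * (∑ u, x b u) ^ s := by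
    intro c
    rw [Fintype.sum_prod_type]
    simp only [← mul_sum]
    rw [sum_pow_pi, ← sum_mul, sum_pi_gen (fun i v => x (c i) v), prod_mul_distrib]
    ring
  rw [sum_congr rfl (fun c _ => h2 c), ← sum_mul, sum_pow_pi (fun u => x b u * ∑ v, x u v),
    mul_pow]
  ring

theorem mean_le {s n : ℕ} (ξ : Sym2 (Fin n) → ℝ) (h : ∀ e, 0 ≤ ξ e ∧ ξ e ≤ 1) :
    mean n ξ (fun G => (copies (spider s) G : ℝ)) ≤
      ∑ b, ((∑ u, wm ξ b u) * ∑ u, wm ξ b u * ∑ v, wm ξ u v) ^ s := by
  classical
  rw [mean_copies, ← sum_maps (wm ξ) (wm_symm ξ)]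
  have hnn : ∀ u v, 0 ≤ wm ξ u v := by
    intro u v
    unfold wm
    split_ifs
    · exact le_refl _
    · exact (h _).1
  calc ∑ f ∈ univ.filter (fun f : VV s → Fin n => Function.Injective f), ∏ e ∈ img f, ξ e
      = ∑ f ∈ univ.filter (fun f : VV s → Fin n => Function.Injective f),
        ∏ y : Fin s ⊕ (Fin s ⊕ Fin s), wm ξ (f (some y)) (f (par y)) := by
        apply sum_congr rfl
        intro f hf
        rw [mem_filter] at hf
        unfold img
        rw [prod_image]
        · apply prod_congr rfl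
          intro y _
          unfold wm
          rw [if_neg]
          intro h'
          exact (spider_adj y).ne (hf.2 h')
        · intro y _ z _ hyz
          have h1 : Sym2.map f s(some y, par y) = Sym2.map f s(some z, par z) := by
            simpa using hyz
          exact ed_inj (Sym2.map.injective hf.2 h1)
    _ ≤ _ := by
        apply sum_le_sum_of_subset_of_nonneg (subset_univ _)
        intro f _ _
        exact prod_nonneg (fun y _ => hnn _ _)

theorem mean_const_ge {s n : ℕ} {p : ℝ} (hp0 : 0 ≤ p) (hp1 : p ≤ 1) :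
    (n.descFactorial (3 * s + 1) : ℝ) * p ^ (3 * s) ≤
      mean n (fun _ => p) (fun G => (copies (spider s) G : ℝ)) := by
  classical
  rw [mean_copies]
  have h1 : ∀ f ∈ univ.filter (fun f : VV s → Fin n => Function.Injective f),
      p ^ (3 * s) ≤ ∏ e ∈ img f, p := by
    intro f _
    rw [prod_const]
    apply pow_le_pow_of_le_one hp0 hp1
    refine le_trans card_image_le ?_
    rw [card_univ]
    simp
    omega
  have h2 : (univ.filter (fun f : VV s → Fin n => Function.Injective f)).card =
      n.descFactorial (3 * s + 1) := by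
    have h3 := Fintype.card_embedding_eq (α := VV s) (β := Fin n)
    rw [card_VV, Fintype.card_fin] at h3
    rw [← h3, ← Fintype.card_subtype]
    exact Fintype.card_congr (Equiv.subtypeInjectiveEquivEmbedding _ _)
  calc (n.descFactorial (3 * s + 1) : ℝ) * p ^ (3 * s)
      = ∑ f ∈ univ.filter (fun f : VV s → Fin n => Function.Injective f), p ^ (3 * s) := by
        rw [sum_const, h2, nsmul_eq_mul]
    _ ≤ _ := sum_le_sum h1

theorem mean_const_le {s n : ℕ} {p : ℝ} :
    mean n (fun _ => p) (fun G => (copies (spider s) G : ℝ)) ≤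
      (n.descFactorial (3 * s + 1) : ℝ) * p ^ (3 * s) := by
  classical
  rw [mean_copies]
  have h1 : ∀ f ∈ univ.filter (fun f : VV s → Fin n => Function.Injective f),
      ∏ e ∈ img f, p = p ^ (3 * s) := by
    intro f hf
    rw [mem_filter] at hf
    rw [prod_const]
    congr 1
    unfold img
    rw [card_image_of_injective]
    · rw [card_univ]
      simp
      omega
    · intro y z hyz
      have h1 : Sym2.map f s(some y, par y) = Sym2.map f s(some z, par z) := by
        simpa using hyz
      exact ed_inj (Sym2.map.injective hf.2 h1)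
  have h2 : (univ.filter (fun f : VV s → Fin n => Function.Injective f)).card =
      n.descFactorial (3 * s + 1) := by
    have h3 := Fintype.card_embedding_eq (α := VV s) (β := Fin n)
    rw [card_VV, Fintype.card_fin] at h3
    rw [← h3, ← Fintype.card_subtype]
    exact Fintype.card_congr (Equiv.subtypeInjectiveEquivEmbedding _ _)
  rw [sum_congr rfl h1, sum_const, h2, nsmul_eq_mul]

end Pool.Agent.Q221.MeanField
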