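import Mathlib.Tactic
import Pool.Agent.Q221.MeanField.Count

/-!
# From a product measure to the deterministic estimate
-/

set_option autoImplicit false

namespace Pool.Agent.Q221.MeanField

open Finset

theorem sum_pairs_two {n : ℕ} (F : Sym2 (Fin n) → ℝ) :
    ∑ v : Fin n, ∑ u ∈ univ.erase v, F s(v, u) = 2 * ∑ e ∈ pairs n, F e := by
  have h1 : ∑ v : Fin n, ∑ u ∈ univ.erase v, F s(v, u) =
      ∑ z ∈ (univ : Finset (Fin n × Fin n)).filter (fun z => z.1 ≠ z.2), F s(z.1, z.2) := by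
    rw [sum_filter, Fintype.sum_prod_type]
    apply sum_congr rfl
    intro v _
    rw [← sum_filter]
    apply sum_congr _ (fun _ _ => rfl)
    ext u
    simp only [mem_erase, mem_univ, and_true, mem_filter, true_and]
    exact ⟨fun h => h.symm, fun h => h.symm⟩
  rw [h1]
  have hmaps : ∀ z ∈ (univ : Finset (Fin n × Fin n)).filter (fun z => z.1 ≠ z.2),
      s(z.1, z.2) ∈ pairs n := by
    intro z hz
    rw [mem_filter] at hz
    unfold pairs
    rw [mem_filter]
    exact ⟨mem_univ _, by rw [Sym2.mk_isDiag_iff]; exact hz.2⟩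
  rw [← sum_fiberwise_of_maps_to hmaps, mul_sum]
  apply sum_congr rfl
  intro e he
  unfold pairs at he
  rw [mem_filter] at he
  induction e using Sym2.ind with
  | _ a b =>
    have hab : a ≠ b := by
      intro h
      exact he.2 (by rw [Sym2.mk_isDiag_iff]; exact h)
    have hfib : ((univ : Finset (Fin n × Fin n)).filter (fun z => z.1 ≠ z.2)).filter
        (fun z => s(z.1, z.2) = s(a, b)) = {(a, b), (b, a)} := by
      ext z
      simp only [mem_filter, mem_univ, true_and, mem_insert, mem_singleton, Sym2.eq_iff]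
      constructor
      · rintro ⟨_, h | h⟩
        · exact Or.inl (Prod.ext h.1 h.2)
        · exact Or.inr (Prod.ext h.1 h.2)
      · rintro (rfl | rfl)
        · exact ⟨hab, Or.inl ⟨rfl, rfl⟩⟩
        · exact ⟨hab.symm, Or.inr ⟨rfl, rfl⟩⟩
    rw [hfib, sum_pair]
    · rw [show s(b, a) = s(a, b) from Sym2.eq_swap]
      ring
    · intro h
      exact hab (Prod.mk.inj h).1

theorem sum_star_le {n : ℕ} (F : Sym2 (Fin n) → ℝ) (hF : ∀ e ∈ pairs n, 0 ≤ F e) (v : Fin n) :
    ∑ u ∈ univ.erase v, F s(v, u) ≤ ∑ e ∈ pairs n, F e := by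
  have hinj : Set.InjOn (fun u : Fin n => s(v, u)) ((univ.erase v : Finset (Fin n)) : Set (Fin n)) := by
    intro a _ b _ h
    simp only [Sym2.eq_iff] at h
    rcases h with h | h
    · exact h.2
    · rw [h.2, ← h.1]
  rw [← sum_image (f := F) (g := fun u : Fin n => s(v, u)) (s := univ.erase v) hinj]
  apply sum_le_sum_of_subset_of_nonneg
  · intro e he
    rw [mem_image] at he
    obtain ⟨u, hu, rfl⟩ := he
    unfold pairs
    rw [mem_filter]
    refine ⟨mem_univ _, ?_⟩
    rw [Sym2.mk_isDiag_iff]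
    rw [mem_erase] at hu
    exact fun h => hu.1 h.symm
  · intro e he _
    exact hF e he

/-- the data attached to a product measure -/
noncomputable def toData {n : ℕ} (ξ : Sym2 (Fin n) → ℝ) (h : ∀ e, 0 ≤ ξ e ∧ ξ e ≤ 1)
    (p : ℝ) (hp : 0 < p) (hp1 : p < 1) : Data (Fin n) where
  x := wm ξ
  p := p
  w := (n : ℝ) * p
  I := ∑ e ∈ pairs n, relEnt p (ξ e)
  hp := hp
  hw := by rw [Fintype.card_fin]
  hx0 := by
    intro u v
    unfold wm
    split_ifs
    · exact le_refl _
    · exact (h _).1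
  hx1 := by
    intro u v
    unfold wm
    split_ifs
    · exact zero_le_one
    · exact (h _).2
  hsymm := wm_symm ξ
  A := fun v => ∑ u ∈ univ.erase v, hh p (ξ s(v, u))
  hA := by
    intro v
    apply sum_le_sum
    intro u hu
    rw [mem_erase] at hu
    unfold wm
    rw [if_neg (fun h' => hu.1 h'.symm)]
  hdiag := by
    intro v
    unfold wm
    rw [if_pos rfl]
  hAI := by
    intro v
    refine le_trans (sum_star_le (fun e => hh p (ξ e)) (fun e _ => hh_nonneg hp (h e).1) v) ?_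
    exact sum_le_sum (fun e _ => relEnt_ge hp1 (h e).1 (h e).2)
  hAs := by
    rw [sum_pairs_two (fun e => hh p (ξ e))]
    apply mul_le_mul_of_nonneg_left _ (by norm_num)
    exact sum_le_sum (fun e _ => relEnt_ge hp1 (h e).1 (h e).2)

/-- the bound on the expected number of spiders in terms of the cost -/
theorem mean_bound {s n : ℕ} (hs : 1 ≤ s) (ξ : Sym2 (Fin n) → ℝ) (h : ∀ e, 0 ≤ ξ e ∧ ξ e ≤ 1)
    {p w I : ℝ} (hp : 0 < p) (hp1 : p < 1) (hw : w = (n : ℝ) * p)
    (hI : ∑ e ∈ pairs n, relEnt p (ξ e) ≤ I)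
    {T ℓ Dm κ T' M : ℝ} (hT : 1 ≤ T) (hℓ : 0 < ℓ)
    (hℓT : ℓ ≤ Real.log T - 1) (h1 : w * T ≤ Dm) (h2 : I ≤ Dm * ℓ)
    (hκ : 0 < κ) (hT' : 1 < T') (hL : w * (T' - 1) ≤ Real.log (κ / p) - 1)
    (hM : 8 * w * Dm + (2 * κ * I + 3 * I / Real.log T') ≤ M) :
    mean n ξ (fun G => (copies (spider s) G : ℝ)) ≤
      2 * (M * Dm) ^ s + M ^ s * (w * T) ^ (s - 1) * (2 * I) +
      ((n : ℝ) * 1024 ^ s * w ^ (3 * s) + (16 * w) ^ s * (2 * I) ^ (s + 1)) := by
  set D := toData ξ h p hp hp1 with hD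
  have hDI : D.I ≤ I := hI
  have hDI0 := D.I_nonneg
  have hw0 : 0 ≤ w := by rw [hw]; positivity
  have hDw : D.w = w := by rw [hw]; rfl
  have hDp : D.p = p := rfl
  have hlT' : 0 < Real.log T' := Real.log_pos hT'
  have hDm : 0 ≤ Dm := le_trans (by positivity) h1
  have hmain := D.main (s := s) (T := T) (ℓ := ℓ) (Dm := Dm) (κ := κ) (T' := T') (M := M)
    hs hT hℓ hℓT (by rw [hDw]; exact h1) (le_trans hDI h2) hκ hT' (by rw [hDw, hDp]; exact hL)
    (by
      rw [hDw]
      refine le_trans ?_ hM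
      gcongr)
  rw [hDw, Fintype.card_fin] at hmain
  refine le_trans (mean_le ξ h) (le_trans hmain ?_)
  have hM0 : 0 ≤ M := by
    refine le_trans ?_ hM
    have : 0 ≤ I := le_trans hDI0 hDI
    positivity
  gcongr

end Pool.Agent.Q221.MeanField
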