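import Mathlib.Data.Fin.Tuple.Basic
import Mathlib.Tactic
import Pool.Agent.Q221.MeanField.Bridge

/-!
# The planted configurations
-/

set_option autoImplicit false

namespace Pool.Agent.Q221.MeanField

open Finset

/-- many systems of distinct representatives -/
theorem sdr {X : Type} [DecidableEq X] [Fintype X] (s : ℕ) :
    ∀ (j k : ℕ) (T : Fin s → Finset X), s ≤ j → (∀ i, k ≤ (T i).card) →
    (k - j) ^ s ≤ (univ.filter (fun e : Fin s → X => Function.Injective e ∧
      ∀ i, e i ∈ T i)).card := by
  induction s with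
  | zero =>
    intro j k T _ _
    rw [pow_zero]
    apply Finset.card_pos.mpr
    refine ⟨Fin.elim0, ?_⟩
    rw [mem_filter]
    exact ⟨mem_univ _, fun a => a.elim0, fun i => i.elim0⟩
  | succ s ih =>
    intro j k T hj hT
    have h1 := ih j k (fun i => T i.succ) (by omega) (fun i => hT _)
    set B := univ.filter (fun e : Fin s → X => Function.Injective e ∧
      ∀ i, e i ∈ T i.succ) with hB
    set S := B.sigma (fun e => T 0 \ univ.image e) with hS
    have h2 : (k - j) ^ (s + 1) ≤ S.card := by
      rw [hS, card_sigma, pow_succ]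
      calc (k - j) ^ s * (k - j) ≤ B.card * (k - j) := Nat.mul_le_mul_right _ h1
        _ = ∑ e ∈ B, (k - j) := by rw [sum_const, smul_eq_mul]
        _ ≤ _ := by
          apply sum_le_sum
          intro e _
          have h3 := Finset.le_card_sdiff (univ.image e) (T 0)
          have h4 : (univ.image e).card ≤ s := by
            refine le_trans card_image_le ?_
            rw [card_univ, Fintype.card_fin]
          have h5 := hT 0
          omega
    refine le_trans h2 ?_
    apply card_le_card_of_injOn (fun z => (Fin.cons z.2 z.1 : Fin (s + 1) → X))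
    · intro z hz
      have hz' : z ∈ S := hz
      rw [hS, mem_sigma, hB, mem_filter, mem_sdiff] at hz'
      obtain ⟨⟨_, hinj, hmem⟩, h3, h4⟩ := hz'
      simp only [coe_filter, mem_univ, true_and]
      refine ⟨?_, ?_⟩
      · rw [Fin.cons_injective_iff]
        refine ⟨?_, hinj⟩
        rintro ⟨i, hi⟩
        apply h4
        rw [mem_image]
        exact ⟨i, mem_univ _, hi⟩
      · intro i
        refine Fin.cases ?_ (fun i => ?_) i
        · simpa using h3
        · simpa using hmem i
    · rintro ⟨e, x⟩ _ ⟨e', x'⟩ _ h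
      have h' : (Fin.cons x e : Fin (s + 1) → X) = Fin.cons x' e' := h
      have h3 := Fin.cons_injective2 h'
      obtain ⟨rfl, rfl⟩ := h3
      rfl

theorem copies_ge {s n : ℕ} (G : SimpleGraph (Fin n)) (b : Fin n) (A O : Finset (Fin n))
    (hbA : b ∉ A) (hbO : b ∉ O) (hAO : Disjoint A O) {a k : ℕ} (hA : a ≤ A.card)
    (hadj : ∀ c ∈ A, G.Adj b c) (T : Fin n → Finset (Fin n)) (hTO : ∀ c ∈ A, T c ⊆ O)
    (hT : ∀ c ∈ A, k ≤ (T c).card) (hTadj : ∀ c ∈ A, ∀ o ∈ T c, G.Adj c o) :
    ((a - 2 * s) ^ 2 * (k - s)) ^ s ≤ copies (spider s) G := by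
  classical
  rw [copies_card]
  set B := univ.filter (fun φ : Fin (s + s) → Fin n => Function.Injective φ ∧
    ∀ i, φ i ∈ A) with hB
  have hBc : (a - 2 * s) ^ (s + s) ≤ B.card :=
    sdr (s + s) (2 * s) a (fun _ => A) (by omega) (fun _ => hA)
  set S := B.sigma (fun φ => univ.filter (fun e : Fin s → Fin n => Function.Injective e ∧
    ∀ i, e i ∈ T (φ (Fin.castAdd s i)))) with hS
  have h2 : ((a - 2 * s) ^ 2 * (k - s)) ^ s ≤ S.card := by
    rw [hS, card_sigma]
    calc ((a - 2 * s) ^ 2 * (k - s)) ^ s = (a - 2 * s) ^ (s + s) * (k - s) ^ s := by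
          rw [mul_pow, ← pow_mul, two_mul]
      _ ≤ B.card * (k - s) ^ s := Nat.mul_le_mul_right _ hBc
      _ = ∑ φ ∈ B, (k - s) ^ s := by rw [sum_const, smul_eq_mul]
      _ ≤ _ := by
        apply sum_le_sum
        intro φ hφ
        rw [hB, mem_filter] at hφ
        exact sdr s s k (fun i => T (φ (Fin.castAdd s i))) le_rfl (fun i => hT _ (hφ.2.2 _))
  refine le_trans h2 ?_
  apply card_le_card_of_injOn (fun z => (splitE s (Fin n)).symm
    (b, (fun i => z.1 (Fin.castAdd s i)), z.2, (fun i => z.1 (Fin.natAdd s i))))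
  · intro z hz
    have hz' : z ∈ S := hz
    rw [hS, mem_sigma, hB, mem_filter, mem_filter] at hz'
    obtain ⟨⟨_, hinj, hmem⟩, _, hinj', hmem'⟩ := hz'
    have heO : ∀ i, z.2 i ∈ O := fun i => hTO _ (hmem _) (hmem' i)
    have hne : ∀ (c : Fin n) (o : Fin n), c ∈ A → o ∈ O → c ≠ o := by
      intro c o hc ho h
      exact disjoint_left.mp hAO hc (h ▸ ho)
    simp only [coe_filter, mem_univ, true_and]
    refine ⟨?_, ?_⟩
    · intro u v huv
      rcases u with _ | i | i | i <;> rcases v with _ | j | j | j
      · rfl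
      · have h' : b = z.1 (Fin.castAdd s j) := huv
        exact absurd (by rw [h']; exact hmem _) hbA
      · have h' : b = z.2 j := huv
        exact absurd (by rw [h']; exact heO _) hbO
      · have h' : b = z.1 (Fin.natAdd s j) := huv
        exact absurd (by rw [h']; exact hmem _) hbA
      · have h' : z.1 (Fin.castAdd s i) = b := huv
        exact absurd (by rw [← h']; exact hmem _) hbA
      · have := hinj (huv : z.1 (Fin.castAdd s i) = z.1 (Fin.castAdd s j))
        rw [Fin.castAdd_injective s s this]
      · exact absurd (huv : z.1 (Fin.castAdd s i) = z.2 j) (hne _ _ (hmem _) (heO _))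
      · have := hinj (huv : z.1 (Fin.castAdd s i) = z.1 (Fin.natAdd s j))
        rw [Fin.ext_iff] at this
        simp at this
        omega
      · have h' : z.2 i = b := huv
        exact absurd (by rw [← h']; exact heO _) hbO
      · exact absurd (huv : z.2 i = z.1 (Fin.castAdd s j)).symm (hne _ _ (hmem _) (heO _))
      · rw [hinj' (huv : z.2 i = z.2 j)]
      · exact absurd (huv : z.2 i = z.1 (Fin.natAdd s j)).symm (hne _ _ (hmem _) (heO _))
      · have h' : z.1 (Fin.natAdd s i) = b := huv
        exact absurd (by rw [← h']; exact hmem _) hbA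
      · have := hinj (huv : z.1 (Fin.natAdd s i) = z.1 (Fin.castAdd s j))
        rw [Fin.ext_iff] at this
        simp at this
        omega
      · exact absurd (huv : z.1 (Fin.natAdd s i) = z.2 j) (hne _ _ (hmem _) (heO _))
      · have := hinj (huv : z.1 (Fin.natAdd s i) = z.1 (Fin.natAdd s j))
        rw [Fin.ext_iff] at this
        simp at this
        rw [Fin.ext_iff.mpr this]
    · have hhalf : ∀ x : Fin s ⊕ (Fin s ⊕ Fin s), G.Adj
          ((splitE s (Fin n)).symm (b, (fun i => z.1 (Fin.castAdd s i)), z.2,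
            (fun i => z.1 (Fin.natAdd s i))) (some x))
          ((splitE s (Fin n)).symm (b, (fun i => z.1 (Fin.castAdd s i)), z.2,
            (fun i => z.1 (Fin.natAdd s i))) (par x)) := by
        intro x
        rcases x with i | i | i
        · exact (hadj _ (hmem (Fin.castAdd s i))).symm
        · exact (hTadj _ (hmem (Fin.castAdd s i)) _ (hmem' i)).symm
        · exact (hadj _ (hmem (Fin.natAdd s i))).symm
      rintro u v ⟨x, hx | hx⟩
      · rw [hx.1, hx.2]
        exact hhalf x
      · rw [hx.1, hx.2]
        exact (hhalf x).symm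
  · rintro ⟨φ, e⟩ _ ⟨φ', e'⟩ _ h
    have h3 := (splitE s (Fin n)).symm.injective h
    simp only [Prod.mk.injEq, true_and] at h3
    obtain ⟨h4, h5, h6⟩ := h3
    subst h5
    have : φ = φ' := by
      funext i
      refine Fin.addCases (fun i => ?_) (fun i => ?_) i
      · exact congrFun h4 i
      · exact congrFun h6 i
    subst this
    rfl

end Pool.Agent.Q221.MeanField
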