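import Mathlib.Tactic
import Pool.Agent.Q221.MeanField.Plant

/-!
# Lower bound for the upper tail probability by adaptive planting
-/

set_option autoImplicit false

namespace Pool.Agent.Q221.MeanField

open Finset

section conf

variable {n : ℕ}

/-- a configuration: the neighbours `A` of the centre in `U`, and the neighbourhoods in `O` -/
abbrev Conf (n : ℕ) : Type := (_ : Finset (Fin n)) × (Fin n → Finset (Fin n))

/-- the configurations with `a` neighbours having `k` neighbours each -/
def confs (U O : Finset (Fin n)) (a k : ℕ) : Finset (Conf n) :=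
  (U.powersetCard a).sigma
    (fun A => Fintype.piFinset (fun c => if c ∈ A then O.powersetCard k else {∅}))

/-- present pairs -/
def onP (b : Fin n) (z : Conf n) : Finset (Sym2 (Fin n)) :=
  z.1.image (fun c => s(b, c)) ∪ z.1.biUnion (fun c => (z.2 c).image (fun o => s(c, o)))

/-- absent pairs -/
def offP (b : Fin n) (U O : Finset (Fin n)) (z : Conf n) : Finset (Sym2 (Fin n)) :=
  (U \ z.1).image (fun c => s(b, c)) ∪ z.1.biUnion (fun c => (O \ z.2 c).image (fun o => s(c, o)))

theorem mem_confs {U O : Finset (Fin n)} {a k : ℕ} {z : Conf n} (hz : z ∈ confs U O a k) :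
    z.1 ⊆ U ∧ z.1.card = a ∧ (∀ c ∈ z.1, z.2 c ⊆ O ∧ (z.2 c).card = k) ∧
      ∀ c, c ∉ z.1 → z.2 c = ∅ := by
  unfold confs at hz
  rw [mem_sigma, mem_powersetCard, Fintype.mem_piFinset] at hz
  refine ⟨hz.1.1, hz.1.2, ?_, ?_⟩
  · intro c hc
    have h := hz.2 c
    rw [if_pos hc, mem_powersetCard] at h
    exact h
  · intro c hc
    have h := hz.2 c
    rw [if_neg hc, mem_singleton] at h
    exact h

theorem card_confs {U O : Finset (Fin n)} {a k m : ℕ} (hU : U.card = m) (hO : O.card = m) :
    (confs U O a k).card = m.choose a * (m.choose k) ^ a := by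
  unfold confs
  rw [card_sigma]
  have h : ∀ A ∈ U.powersetCard a,
      (Fintype.piFinset (fun c => if c ∈ A then O.powersetCard k else {∅})).card =
        (m.choose k) ^ a := by
    intro A hA
    rw [mem_powersetCard] at hA
    rw [Fintype.card_piFinset]
    have h1 : ∀ c : Fin n, (if c ∈ A then O.powersetCard k else {∅}).card =
        if c ∈ A then m.choose k else 1 := by
      intro c
      split_ifs
      · rw [card_powersetCard, hO]
      · rw [card_singleton]
    rw [prod_congr rfl (fun c _ => h1 c), prod_ite, prod_const_one, mul_one, prod_const,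
      filter_mem_eq_inter, univ_inter, hA.2]
  rw [sum_congr rfl h, sum_const, card_powersetCard, hU, smul_eq_mul]

theorem card_onP {U O : Finset (Fin n)} {a k : ℕ} (b : Fin n) {z : Conf n}
    (hz : z ∈ confs U O a k) : (onP b z).card ≤ a + a * k := by
  obtain ⟨_, h2, h3, _⟩ := mem_confs hz
  unfold onP
  refine le_trans (card_union_le _ _) ?_
  apply Nat.add_le_add
  · exact le_trans card_image_le h2.le
  · refine le_trans card_biUnion_le ?_
    calc ∑ c ∈ z.1, ((z.2 c).image (fun o => s(c, o))).card ≤ ∑ c ∈ z.1, k := by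
          apply sum_le_sum
          intro c hc
          exact le_trans card_image_le (h3 c hc).2.le
      _ = a * k := by rw [sum_const, h2, smul_eq_mul]

theorem card_offP {U O : Finset (Fin n)} {a k m : ℕ} (hU : U.card = m) (hO : O.card = m)
    (b : Fin n) {z : Conf n}
    (hz : z ∈ confs U O a k) : (offP b U O z).card ≤ m + a * m := by
  obtain ⟨_, h2, _, _⟩ := mem_confs hz
  unfold offP
  refine le_trans (card_union_le _ _) ?_
  apply Nat.add_le_add
  · refine le_trans card_image_le ?_
    rw [← hU]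
    exact card_le_card sdiff_subset
  · refine le_trans card_biUnion_le ?_
    calc ∑ c ∈ z.1, ((O \ z.2 c).image (fun o => s(c, o))).card ≤ ∑ c ∈ z.1, m := by
          apply sum_le_sum
          intro c hc
          refine le_trans card_image_le ?_
          rw [← hO]
          exact card_le_card sdiff_subset
      _ = a * m := by rw [sum_const, h2, smul_eq_mul]

theorem mem_pairs_of_ne {u v : Fin n} (h : u ≠ v) : s(u, v) ∈ pairs n := by
  unfold pairs
  rw [mem_filter]
  exact ⟨mem_univ _, by rw [Sym2.mk_isDiag_iff]; exact h⟩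

theorem onP_subset {b : Fin n} {U O : Finset (Fin n)} (hbU : b ∉ U) (hUO : Disjoint U O)
    {a k : ℕ} {z : Conf n} (hz : z ∈ confs U O a k) : onP b z ⊆ pairs n := by
  obtain ⟨h1, _, h3, _⟩ := mem_confs hz
  intro e he
  unfold onP at he
  rw [mem_union, mem_image, mem_biUnion] at he
  rcases he with ⟨c, hc, rfl⟩ | ⟨c, hc, he⟩
  · exact mem_pairs_of_ne (fun h => hbU (h ▸ h1 hc))
  · rw [mem_image] at he
    obtain ⟨o, ho, rfl⟩ := he
    exact mem_pairs_of_ne (fun h => disjoint_left.mp hUO (h1 hc) (h ▸ (h3 c hc).1 ho))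

theorem offP_subset {b : Fin n} {U O : Finset (Fin n)} (hbU : b ∉ U) (hUO : Disjoint U O)
    {a k : ℕ} {z : Conf n} (hz : z ∈ confs U O a k) : offP b U O z ⊆ pairs n := by
  obtain ⟨h1, _, h3, _⟩ := mem_confs hz
  intro e he
  unfold offP at he
  rw [mem_union, mem_image, mem_biUnion] at he
  rcases he with ⟨c, hc, rfl⟩ | ⟨c, hc, he⟩
  · rw [mem_sdiff] at hc
    exact mem_pairs_of_ne (fun h => hbU (h ▸ hc.1))
  · rw [mem_image] at he
    obtain ⟨o, ho, rfl⟩ := he
    rw [mem_sdiff] at ho
    exact mem_pairs_of_ne (fun h => disjoint_left.mp hUO (h1 hc) (h ▸ ho.1))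

theorem on_off {b : Fin n} {U O : Finset (Fin n)} (hbU : b ∉ U) (hbO : b ∉ O)
    (hUO : Disjoint U O) {a k : ℕ} {z : Conf n} (hz : z ∈ confs U O a k) :
    Disjoint (onP b z) (offP b U O z) := by
  obtain ⟨h1, _, h3, _⟩ := mem_confs hz
  rw [disjoint_left]
  intro e he he'
  unfold onP at he
  unfold offP at he'
  rw [mem_union, mem_image, mem_biUnion] at he he'
  rcases he with ⟨c, hc, rfl⟩ | ⟨c, hc, he⟩
  · rcases he' with ⟨c', hc', h⟩ | ⟨c', hc', h⟩
    · rw [mem_sdiff] at hc'
      rw [Sym2.eq_iff] at h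
      rcases h with ⟨_, h⟩ | ⟨_, h⟩
      · exact hc'.2 (h ▸ hc)
      · exact hbU (h ▸ hc'.1)
    · rw [mem_image] at h
      obtain ⟨o', ho', h⟩ := h
      rw [mem_sdiff] at ho'
      rw [Sym2.eq_iff] at h
      rcases h with ⟨h, _⟩ | ⟨_, h⟩
      · exact hbU (h ▸ h1 hc')
      · exact hbO (h ▸ ho'.1)
  · rw [mem_image] at he
    obtain ⟨o, ho, rfl⟩ := he
    rcases he' with ⟨c', hc', h⟩ | ⟨c', hc', h⟩
    · rw [mem_sdiff] at hc'
      rw [Sym2.eq_iff] at h
      rcases h with ⟨h, _⟩ | ⟨h, _⟩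
      · exact hbU (h ▸ h1 hc)
      · exact hbO (h ▸ (h3 c hc).1 ho)
    · rw [mem_image] at h
      obtain ⟨o', ho', h⟩ := h
      rw [mem_sdiff] at ho'
      rw [Sym2.eq_iff] at h
      rcases h with ⟨h, h'⟩ | ⟨h, h'⟩
      · subst h
        subst h'
        exact ho'.2 ho
      · exact disjoint_left.mp hUO (h1 hc') (h ▸ (h3 c hc).1 ho)

theorem conf_unique {b : Fin n} {U O : Finset (Fin n)} {a k : ℕ} {z z' : Conf n}
    (hz : z ∈ confs U O a k) (hz' : z' ∈ confs U O a k) (S : Finset (Sym2 (Fin n)))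
    (h1 : onP b z ⊆ S ∧ Disjoint (offP b U O z) S)
    (h2 : onP b z' ⊆ S ∧ Disjoint (offP b U O z') S) : z = z' := by
  have key : ∀ {y y' : Conf n}, y ∈ confs U O a k → y' ∈ confs U O a k →
      onP b y ⊆ S → Disjoint (offP b U O y') S → y.1 ⊆ y'.1 := by
    intro y y' hy hy' hon hoff c hc
    obtain ⟨g1, _, _, _⟩ := mem_confs hy
    by_contra hcn
    have e1 : s(b, c) ∈ S := by
      apply hon
      unfold onP
      rw [mem_union]
      exact Or.inl (mem_image_of_mem _ hc)
    have e2 : s(b, c) ∈ offP b U O y' := by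
      unfold offP
      rw [mem_union]
      exact Or.inl (mem_image_of_mem (fun c => s(b, c)) (mem_sdiff.mpr ⟨g1 hc, hcn⟩))
    exact disjoint_left.mp hoff e2 e1
  have hA : z.1 = z'.1 := Subset.antisymm (key hz hz' h1.1 h2.2) (key hz' hz h2.1 h1.2)
  have key2 : ∀ {y y' : Conf n}, y ∈ confs U O a k → y' ∈ confs U O a k → y.1 = y'.1 →
      onP b y ⊆ S → Disjoint (offP b U O y') S → ∀ c ∈ y.1, y.2 c ⊆ y'.2 c := by
    intro y y' hy hy' hyy hon hoff c hc o ho
    obtain ⟨_, _, g3, _⟩ := mem_confs hy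
    by_contra hcn
    have e1 : s(c, o) ∈ S := by
      apply hon
      unfold onP
      rw [mem_union, mem_biUnion]
      exact Or.inr ⟨c, hc, mem_image_of_mem _ ho⟩
    have e2 : s(c, o) ∈ offP b U O y' := by
      unfold offP
      rw [mem_union, mem_biUnion]
      exact Or.inr ⟨c, hyy ▸ hc, mem_image_of_mem (fun o => s(c, o))
        (mem_sdiff.mpr ⟨(g3 c hc).1 ho, hcn⟩)⟩
    exact disjoint_left.mp hoff e2 e1
  have hT : z.2 = z'.2 := by
    funext c
    by_cases hc : c ∈ z.1
    · exact Subset.antisymm (key2 hz hz' hA h1.1 h2.2 c hc)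
        (key2 hz' hz hA.symm h2.1 h1.2 c (hA ▸ hc))
    · rw [(mem_confs hz).2.2.2 c hc, (mem_confs hz').2.2.2 c (hA ▸ hc)]
  rcases z with ⟨A, T⟩
  rcases z' with ⟨A', T'⟩
  simp only at hA hT
  subst hA
  subst hT
  rfl

end conf

theorem upper_ge {s n m a k : ℕ} (b : Fin n) (U O : Finset (Fin n)) (hbU : b ∉ U)
    (hbO : b ∉ O) (hUO : Disjoint U O) (hU : U.card = m) (hO : O.card = m) {p x : ℝ}
    (hp0 : 0 ≤ p) (hp1 : p ≤ 1) (hx : x ≤ ((((a - 2 * s) ^ 2 * (k - s)) ^ s : ℕ) : ℝ)) :
    (m.choose a : ℝ) * (m.choose k : ℝ) ^ a * (p ^ (a + a * k) * (1 - p) ^ (m + a * m)) ≤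
      upper (spider s) n p x := by
  classical
  have h01 : ∀ e : Sym2 (Fin n), 0 ≤ (fun _ : Sym2 (Fin n) => p) e ∧
      (fun _ : Sym2 (Fin n) => p) e ≤ 1 := fun _ => ⟨hp0, hp1⟩
  unfold upper
  rw [mean_eq]
  have hpoint : ∀ S ∈ (pairs n).powerset,
      ∑ z ∈ confs U O a k, (if onP b z ⊆ S ∧ Disjoint (offP b U O z) S then (1 : ℝ) else 0) ≤
      (fun S : Finset (Sym2 (Fin n)) => (fun G : SimpleGraph (Fin n) =>
        if x ≤ (copies (spider s) G : ℝ) then (1 : ℝ) else 0)
        (SimpleGraph.fromEdgeSet (S : Set (Sym2 (Fin n))))) S := by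
    intro S _
    rw [sum_boole]
    set K := (confs U O a k).filter (fun z => onP b z ⊆ S ∧ Disjoint (offP b U O z) S) with hK
    have hK1 : K.card ≤ 1 := by
      rw [card_le_one]
      intro z hz z' hz'
      rw [hK, mem_filter] at hz hz'
      exact conf_unique hz.1 hz'.1 S hz.2 hz'.2
    by_cases hne : K.Nonempty
    · obtain ⟨z, hz⟩ := hne
      rw [hK, mem_filter] at hz
      obtain ⟨hzc, hon, hoff⟩ := hz
      obtain ⟨g1, g2, g3, _⟩ := mem_confs hzc
      have hev : ((a - 2 * s) ^ 2 * (k - s)) ^ s ≤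
          copies (spider s) (SimpleGraph.fromEdgeSet (S : Set (Sym2 (Fin n)))) := by
        apply copies_ge _ b z.1 O (fun h => hbU (g1 h)) hbO
          (disjoint_of_subset_left g1 hUO) g2.ge _ z.2 (fun c hc => (g3 c hc).1)
          (fun c hc => (g3 c hc).2.ge)
        · intro c hc o ho
          rw [SimpleGraph.fromEdgeSet_adj]
          refine ⟨?_, fun h => disjoint_left.mp hUO (g1 hc) (h ▸ (g3 c hc).1 ho)⟩
          have : s(c, o) ∈ onP b z := by
            unfold onP
            rw [mem_union, mem_biUnion]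
            exact Or.inr ⟨c, hc, mem_image_of_mem _ ho⟩
          exact_mod_cast hon this
        · intro c hc
          rw [SimpleGraph.fromEdgeSet_adj]
          refine ⟨?_, fun h => hbU (h ▸ g1 hc)⟩
          have : s(b, c) ∈ onP b z := by
            unfold onP
            rw [mem_union]
            exact Or.inl (mem_image_of_mem _ hc)
          exact_mod_cast hon this
      have hev' : x ≤ (copies (spider s)
          (SimpleGraph.fromEdgeSet (S : Set (Sym2 (Fin n)))) : ℝ) :=
        le_trans hx (by exact_mod_cast hev)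
      simp only
      rw [if_pos hev']
      exact_mod_cast hK1
    · rw [not_nonempty_iff_eq_empty] at hne
      rw [hne, card_empty, Nat.cast_zero]
      simp only
      split_ifs
      · exact zero_le_one
      · exact le_refl _
  refine le_trans ?_ (exg_mono h01 hpoint)
  rw [exg_sum]
  have hterm : ∀ z ∈ confs U O a k, p ^ (a + a * k) * (1 - p) ^ (m + a * m) ≤
      exg (pairs n) (fun _ => p)
        (fun S => if onP b z ⊆ S ∧ Disjoint (offP b U O z) S then (1 : ℝ) else 0) := by
    intro z hz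
    rw [exg_cyl (pairs n) (onP b z) (offP b U O z) (fun _ => p) (onP_subset hbU hUO hz)
      (offP_subset hbU hUO hz) (on_off hbU hbO hUO hz), prod_const, prod_const]
    apply mul_le_mul
    · exact pow_le_pow_of_le_one hp0 hp1 (card_onP b hz)
    · exact pow_le_pow_of_le_one (by linarith) (by linarith) (card_offP hU hO b hz)
    · exact pow_nonneg (by linarith) _
    · exact pow_nonneg hp0 _
  calc (m.choose a : ℝ) * (m.choose k : ℝ) ^ a * (p ^ (a + a * k) * (1 - p) ^ (m + a * m))
      = ∑ z ∈ confs U O a k, p ^ (a + a * k) * (1 - p) ^ (m + a * m) := by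
        rw [sum_const, card_confs hU hO, nsmul_eq_mul]
        push_cast
        ring
    _ ≤ _ := sum_le_sum hterm

end Pool.Agent.Q221.MeanField
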