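import Mathlib.Analysis.SpecialFunctions.Log.Basic
import Mathlib.Analysis.SpecialFunctions.Pow.Real
import Mathlib.Tactic
import Pool.Agent.Q221.MeanField.Prob

/-!
# The two numerical estimates
-/

set_option autoImplicit false

namespace Pool.Agent.Q221.MeanField

open Finset

theorem one_lt_log2 : (0.69 : ℝ) ≤ Real.log 2 := by
  have := Real.log_two_gt_d9
  linarith

theorem log2_lt : Real.log 2 ≤ 0.69315 := by
  have := Real.log_two_lt_d9
  linarith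

theorem nat_le_two_pow (w : ℕ) : (w : ℝ) ≤ 2 ^ w := by
  exact_mod_cast Nat.lt_two_pow_self.le

/-- the number of vertices -/
def NN (s w : ℕ) : ℕ := 2 ^ (1600 * s * w)

theorem NN_real (s w : ℕ) : ((NN s w : ℕ) : ℝ) = ((2 : ℝ) ^ (800 * w)) ^ (2 * s) := by
  unfold NN
  push_cast
  rw [← pow_mul]
  congr 1
  ring

section

variable {s w : ℕ} (hs : (2 : ℝ) ^ 4800 ≤ s) (hw : s ≤ w)

include hs

theorem s_big : 1000 ≤ s := by
  have h : (1000 : ℝ) ≤ (2 : ℝ) ^ 4800 := by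
    calc (1000 : ℝ) ≤ 2 ^ 10 := by norm_num
      _ ≤ 2 ^ 4800 := pow_le_pow_right₀ (by norm_num) (by norm_num)
  have h2 : (1000 : ℝ) ≤ (s : ℝ) := le_trans h hs
  exact_mod_cast h2

include hw

theorem NN_big : 60 * s * (3 * s + 1) ≤ NN s w := by
  have h1 := s_big hs
  unfold NN
  have h2 : s < 2 ^ s := Nat.lt_two_pow_self
  have h3 : 3 * s + 1 ≤ 4 * 2 ^ s := by omega
  calc 60 * s * (3 * s + 1) ≤ (60 * 2 ^ s) * (4 * 2 ^ s) := by
        apply Nat.mul_le_mul _ h3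
        exact Nat.mul_le_mul_left _ h2.le
    _ = 240 * 2 ^ (2 * s) := by
        rw [two_mul, pow_add]
        ring
    _ ≤ 2 ^ 8 * 2 ^ (2 * s) := Nat.mul_le_mul_right _ (by norm_num)
    _ = 2 ^ (8 + 2 * s) := by rw [pow_add]
    _ ≤ 2 ^ (1600 * s * w) := by
        apply Nat.pow_le_pow_right (by norm_num)
        nlinarith

theorem mean_const_lower {p : ℝ} (hp : p = (w : ℝ) / (NN s w : ℝ)) :
    (19 / 20 : ℝ) * ((w : ℝ) ^ (3 * s) * (NN s w : ℝ)) ≤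
      ((NN s w).descFactorial (3 * s + 1) : ℝ) * p ^ (3 * s) := by
  have h1 := s_big hs
  have hbig := NN_big hs hw
  set n := NN s w with hn
  have hn0 : 0 < n := by
    rw [hn]
    unfold NN
    positivity
  have hN : (0 : ℝ) < n := by exact_mod_cast hn0
  have hle : 3 * s ≤ n := by nlinarith
  have h2 := Nat.pow_sub_le_descFactorial n (3 * s + 1)
  have h3 : ((n : ℝ) - 3 * s) ^ (3 * s + 1) ≤ (n.descFactorial (3 * s + 1) : ℝ) := by
    have h4 : (((n + 1 - (3 * s + 1)) ^ (3 * s + 1) : ℕ) : ℝ) ≤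
        (n.descFactorial (3 * s + 1) : ℝ) := by exact_mod_cast h2
    rw [show n + 1 - (3 * s + 1) = n - 3 * s by omega] at h4
    push_cast [Nat.cast_sub hle] at h4
    exact h4
  have hx : (-2 : ℝ) ≤ -(3 * s / n) := by
    have : (3 * s : ℝ) / n ≤ 1 := by
      rw [div_le_one hN]
      exact_mod_cast hle
    linarith
  have h5 := one_add_mul_le_pow hx (3 * s + 1)
  have h6 : (19 / 20 : ℝ) ≤ (1 + -(3 * s / n)) ^ (3 * s + 1) := by
    refine le_trans ?_ h5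
    have h7 : ((3 * s + 1 : ℕ) : ℝ) * (3 * s / n) ≤ 1 / 20 := by
      rw [← mul_div_assoc, div_le_iff₀ hN]
      have h8 : (60 * s * (3 * s + 1) : ℝ) ≤ n := by exact_mod_cast hbig
      push_cast
      linarith
    have h9 : ((3 * s + 1 : ℕ) : ℝ) * -(3 * s / n) = -(((3 * s + 1 : ℕ) : ℝ) * (3 * s / n)) := by
      ring
    rw [h9]
    linarith
  have h10 : ((n : ℝ) - 3 * s) ^ (3 * s + 1) = (n : ℝ) ^ (3 * s + 1) *
      (1 + -(3 * s / n)) ^ (3 * s + 1) := by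
    rw [← mul_pow]
    congr 1
    field_simp
    ring
  have h11 : (n : ℝ) ^ (3 * s + 1) * (19 / 20) ≤ (n.descFactorial (3 * s + 1) : ℝ) := by
    refine le_trans ?_ h3
    rw [h10]
    gcongr
  have h12 : (n : ℝ) ^ (3 * s + 1) * p ^ (3 * s) = (w : ℝ) ^ (3 * s) * n := by
    rw [hp, div_pow, pow_succ]
    field_simp
  have hp0 : 0 ≤ p := by rw [hp]; positivity
  calc (19 / 20 : ℝ) * ((w : ℝ) ^ (3 * s) * n)
      = ((n : ℝ) ^ (3 * s + 1) * (19 / 20)) * p ^ (3 * s) := by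
        rw [← h12]
        ring
    _ ≤ _ := by gcongr

theorem p_small {p : ℝ} (hp : p = (w : ℝ) / (NN s w : ℝ)) : 0 < p ∧ p ≤ 1 / 20 := by
  have h1 := s_big hs
  have hw0 : (0 : ℝ) < w := by
    have : 0 < w := by omega
    exact_mod_cast this
  have hN : (0 : ℝ) < (NN s w : ℝ) := by
    have : 0 < NN s w := by unfold NN; positivity
    exact_mod_cast this
  rw [hp]
  refine ⟨by positivity, ?_⟩
  rw [div_le_iff₀ hN]
  have h2 : w < 2 ^ w := Nat.lt_two_pow_self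
  have h3 : 20 * w ≤ NN s w := by
    unfold NN
    calc 20 * w ≤ 2 ^ 5 * 2 ^ w := Nat.mul_le_mul (by norm_num) h2.le
      _ = 2 ^ (5 + w) := by rw [pow_add]
      _ ≤ 2 ^ (1600 * s * w) := by
        apply Nat.pow_le_pow_right (by norm_num)
        nlinarith
  have h4 : (20 * w : ℝ) ≤ (NN s w : ℝ) := by exact_mod_cast h3
  linarith

omit hs hw in
theorem num_L {t σ W lg : ℝ} (h10 : 10 ≤ t) (hts : t ≤ σ) (hW : 1000 ≤ W) (hl : 0.69 ≤ lg) :
    W * (t - 1) ≤ 1600 * σ * W * lg - 2240 * W - 1 := by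
  have e1 : t * 0.69 ≤ σ * lg := mul_le_mul hts hl (by norm_num) (by linarith)
  have e2 : t * 0.69 * W ≤ σ * lg * W := mul_le_mul_of_nonneg_right e1 (by linarith)
  have e3 : 10 * W ≤ t * W := mul_le_mul_of_nonneg_right h10 (by linarith)
  have e4 : W * (t - 1) = t * W - W := by ring
  have e5 : 1600 * σ * W * lg = 1600 * (σ * lg * W) := by ring
  have e6 : t * 0.69 * W = 0.69 * (t * W) := by ring
  rw [e6] at e2
  rw [e4, e5]
  linarith

omit hs hw in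
theorem num_M {W E lg : ℝ} (hlg : 0 < lg) (hlg2 : lg ≤ 0.69315) (hE : 0 ≤ E) :
    8 * W * (12.67 * W * E) + (2 * (1 / 2240) * (9600 * lg * W ^ 2 * E) +
      3 * (9600 * lg * W ^ 2 * E) / (4800 * lg)) ≤ 113.31 * W ^ 2 * E := by
  have e1 : 3 * (9600 * lg * W ^ 2 * E) / (4800 * lg) = 6 * (W ^ 2 * E) := by
    field_simp
    ring
  rw [e1]
  have e2 : 0 ≤ W ^ 2 * E := by positivity
  have e3 : lg * (W ^ 2 * E) ≤ 0.69315 * (W ^ 2 * E) := mul_le_mul_of_nonneg_right hlg2 e2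
  have e4 : 8 * W * (12.67 * W * E) = 101.36 * (W ^ 2 * E) := by ring
  have e5 : 2 * (1 / 2240) * (9600 * lg * W ^ 2 * E) = 60 / 7 * (lg * (W ^ 2 * E)) := by ring
  have e6 : 113.31 * W ^ 2 * E = 113.31 * (W ^ 2 * E) := by ring
  rw [e4, e5, e6]
  linarith

omit hs hw in
theorem num_t1 (s : ℕ) {W E Q : ℝ} (hW : 0 ≤ W) (hE : 0 ≤ E)
    (hQ : Q = W ^ (3 * s) * E ^ (2 * s)) :
    2 * (113.31 * W ^ 2 * E * (12.67 * W * E)) ^ s ≤ 2 * 1440 ^ s * Q := by
  have e1 : 113.31 * W ^ 2 * E * (12.67 * W * E) = 1435.6377 * (W ^ 3 * E ^ 2) := by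
    ring
  rw [e1, mul_pow, mul_pow, ← pow_mul, ← pow_mul, hQ]
  have e2 : (1435.6377 : ℝ) ^ s ≤ 1440 ^ s := pow_le_pow_left₀ (by norm_num) (by norm_num) s
  calc 2 * (1435.6377 ^ s * (W ^ (3 * s) * E ^ (2 * s)))
      ≤ 2 * (1440 ^ s * (W ^ (3 * s) * E ^ (2 * s))) := by gcongr
    _ = _ := by ring

omit hs hw in
theorem num_t3 (s : ℕ) {W N : ℝ} (hW : 0 ≤ W) (hN : 0 ≤ N) :
    N * 1024 ^ s * W ^ (3 * s) ≤ 1440 ^ s * (W ^ (3 * s) * N) := by
  have e2 : (1024 : ℝ) ^ s ≤ 1440 ^ s := pow_le_pow_left₀ (by norm_num) (by norm_num) s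
  calc N * 1024 ^ s * W ^ (3 * s) = 1024 ^ s * (W ^ (3 * s) * N) := by ring
    _ ≤ _ := by gcongr

omit hs hw in
theorem num_t2 {r w : ℕ} (hr : 2 ≤ r) (hw : 1 ≤ w) {B T E Q : ℝ} (hB : 0 ≤ B)
    (h2B : 2 * B ≤ 13440 * (w : ℝ) ^ 2 * E) (hT : 0 < T) (hE : 0 < E)
    (hTE : T * 2 ^ (40 * w) = E)
    (hQ : Q = (w : ℝ) ^ (3 * (r + 1)) * E ^ (2 * (r + 1))) :
    (113.31 * (w : ℝ) ^ 2 * E) ^ (r + 1) * ((w : ℝ) * T) ^ r * (2 * B) ≤
        1 / 10 * 1440 ^ (r + 1) * Q := by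
  have hwpow : (w : ℝ) ≤ 2 ^ w := nat_le_two_pow w
  have hq : (113.31 : ℝ) ≤ 1440 := by norm_num
  calc (113.31 * (w : ℝ) ^ 2 * E) ^ (r + 1) * ((w : ℝ) * T) ^ r * (2 * B)
      ≤ (1440 * (w : ℝ) ^ 2 * E) ^ (r + 1) * ((w : ℝ) * T) ^ r * (13440 * (w : ℝ) ^ 2 * E) := by
        gcongr
    _ = 1440 ^ (r + 1) * ((w : ℝ) ^ (3 * (r + 1)) * (E ^ (r + 1 + 1) * T ^ r)) * (13440 * w) := by
        rw [mul_pow, mul_pow, mul_pow]
        ring
    _ ≤ 1440 ^ (r + 1) * ((w : ℝ) ^ (3 * (r + 1)) * (E ^ (r + 1 + 1) * T ^ r)) *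
        (1 / 10 * (2 ^ (40 * w)) ^ r) := by
        apply mul_le_mul_of_nonneg_left _ (by positivity)
        calc (13440 * w : ℝ) ≤ 13440 * 2 ^ w := by gcongr
          _ ≤ 1 / 10 * (2 ^ 18 * 2 ^ w) := by
            have : (0 : ℝ) < 2 ^ w := by positivity
            nlinarith
          _ = 1 / 10 * 2 ^ (18 + w) := by rw [← pow_add]
          _ ≤ 1 / 10 * 2 ^ (40 * w * r) := by
            apply mul_le_mul_of_nonneg_left _ (by norm_num)
            apply pow_le_pow_right₀ (by norm_num)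
            nlinarith
          _ = 1 / 10 * (2 ^ (40 * w)) ^ r := by rw [← pow_mul]
    _ = 1 / 10 * 1440 ^ (r + 1) * Q := by
        rw [hQ]
        have e1 : E ^ (2 * (r + 1)) = E ^ (r + 1 + 1) * (T ^ r * (2 ^ (40 * w)) ^ r) := by
          rw [← mul_pow, hTE, ← pow_add]
          congr 1
          omega
        rw [e1]
        ring

omit hs hw in
theorem num_t4 {r w : ℕ} (hr : 2 ≤ r) (hw : 1 ≤ w) {B E Q : ℝ} (hB : 0 ≤ B)
    (h2B : 2 * B ≤ 13440 * (w : ℝ) ^ 2 * E) (hE : E = 2 ^ (800 * w))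
    (hQ : Q = (w : ℝ) ^ (3 * (r + 1)) * E ^ (2 * (r + 1))) :
    (16 * (w : ℝ)) ^ (r + 1) * (2 * B) ^ (r + 1 + 1) ≤ 1 / 10 * 1440 ^ (r + 1) * Q := by
  have hE0 : 0 < E := by rw [hE]; positivity
  have hwpow : (w : ℝ) ≤ 2 ^ w := nat_le_two_pow w
  have hQ0 : 0 ≤ Q := by rw [hQ]; positivity
  have hq : (13440 : ℝ) ≤ 2 ^ 14 := by norm_num
  have h1440 : (1 : ℝ) ≤ 1440 ^ (r + 1) := one_le_pow₀ (by norm_num)
  calc (16 * (w : ℝ)) ^ (r + 1) * (2 * B) ^ (r + 1 + 1)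
      ≤ (16 * (w : ℝ)) ^ (r + 1) * (13440 * (w : ℝ) ^ 2 * E) ^ (r + 1 + 1) := by gcongr
    _ ≤ (16 * (w : ℝ)) ^ (r + 1) * (2 ^ 14 * (w : ℝ) ^ 2 * E) ^ (r + 1 + 1) := by
        gcongr
    _ = (w : ℝ) ^ (3 * (r + 1)) * E ^ (r + 1 + 1) *
        (16 ^ (r + 1) * (2 ^ 14) ^ (r + 1 + 1) * (w : ℝ) ^ 2) := by
        rw [mul_pow, mul_pow, mul_pow]
        ring
    _ ≤ (w : ℝ) ^ (3 * (r + 1)) * E ^ (r + 1 + 1) * (1 / 10 * E ^ r) := by
        apply mul_le_mul_of_nonneg_left _ (by positivity)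
        calc (16 : ℝ) ^ (r + 1) * (2 ^ 14) ^ (r + 1 + 1) * (w : ℝ) ^ 2
            ≤ 16 ^ (r + 1) * (2 ^ 14) ^ (r + 1 + 1) * (2 ^ w) ^ 2 := by gcongr
          _ = 1 / 10 * (10 * 2 ^ (4 * (r + 1) + 14 * (r + 1 + 1) + w * 2)) := by
            have q1 : (16 : ℝ) ^ (r + 1) = 2 ^ (4 * (r + 1)) := by
              rw [pow_mul]
              norm_num
            have q2 : ((2 : ℝ) ^ 14) ^ (r + 1 + 1) = 2 ^ (14 * (r + 1 + 1)) := by
              rw [pow_mul]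
            have q3 : ((2 : ℝ) ^ w) ^ 2 = 2 ^ (w * 2) := by
              rw [pow_mul]
            rw [q1, q2, q3, pow_add, pow_add]
            ring
          _ ≤ 1 / 10 * (2 ^ 4 * 2 ^ (4 * (r + 1) + 14 * (r + 1 + 1) + w * 2)) := by
            have : (0 : ℝ) < 2 ^ (4 * (r + 1) + 14 * (r + 1 + 1) + w * 2) := by positivity
            nlinarith
          _ = 1 / 10 * 2 ^ (4 + (4 * (r + 1) + 14 * (r + 1 + 1) + w * 2)) := by rw [← pow_add]
          _ ≤ 1 / 10 * 2 ^ (800 * w * r) := by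
            apply mul_le_mul_of_nonneg_left _ (by norm_num)
            apply pow_le_pow_right₀ (by norm_num)
            nlinarith
          _ = 1 / 10 * E ^ r := by rw [hE, ← pow_mul]
    _ = 1 / 10 * Q := by
        rw [hQ]
        have e1 : E ^ (2 * (r + 1)) = E ^ (r + 1 + 1) * E ^ r := by
          rw [← pow_add]
          congr 1
          omega
        rw [e1]
        ring
    _ ≤ 1 / 10 * 1440 ^ (r + 1) * Q := by nlinarith

omit hs hw in
theorem num_feas {s n : ℕ} (hs : 1 ≤ s) {p : ℝ} (hp0 : 0 < p) (hp20 : p ≤ 1 / 20) :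
    (1 + 4 * 1440 ^ s * (1 - 1 / 10) : ℝ) *
        mean n (fun _ => p) (fun G => (copies (spider s) G : ℝ)) ≤
      mean n (fun _ => 1) (fun G => (copies (spider s) G : ℝ)) := by
  have h1 := mean_const_ge (s := s) (n := n) (p := 1) zero_le_one le_rfl
  have h2 := mean_const_le (s := s) (n := n) (p := p)
  refine le_trans ?_ h1
  rw [one_pow, mul_one]
  have h3 : (1 + 4 * 1440 ^ s * (1 - 1 / 10) : ℝ) * p ^ (3 * s) ≤ 1 := by
    have h4 : (1 + 4 * 1440 ^ s * (1 - 1 / 10) : ℝ) ≤ 7200 ^ s := by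
      have h5 : (1 : ℝ) ≤ 1440 ^ s := one_le_pow₀ (by norm_num)
      have h6 : (5 : ℝ) ≤ 5 ^ s := by
        calc (5 : ℝ) = 5 ^ 1 := by norm_num
          _ ≤ 5 ^ s := pow_le_pow_right₀ (by norm_num) (by omega)
      have h7 : (7200 : ℝ) ^ s = 5 ^ s * 1440 ^ s := by
        rw [← mul_pow]
        norm_num
      rw [h7]
      nlinarith
    have h8 : p ^ (3 * s) ≤ (1 / 7200) ^ s := by
      rw [pow_mul]
      apply pow_le_pow_left₀ (by positivity)
      calc p ^ 3 ≤ (1 / 20) ^ 3 := pow_le_pow_left₀ hp0.le hp20 3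
        _ ≤ 1 / 7200 := by norm_num
    calc (1 + 4 * 1440 ^ s * (1 - 1 / 10) : ℝ) * p ^ (3 * s) ≤ 7200 ^ s * (1 / 7200) ^ s := by
          apply mul_le_mul h4 h8 (by positivity) (by positivity)
      _ = 1 := by rw [← mul_pow]; norm_num
  calc (1 + 4 * 1440 ^ s * (1 - 1 / 10) : ℝ) *
      mean n (fun _ => p) (fun G => (copies (spider s) G : ℝ))
      ≤ (1 + 4 * 1440 ^ s * (1 - 1 / 10) : ℝ) *
        ((n.descFactorial (3 * s + 1) : ℝ) * p ^ (3 * s)) := by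
        apply mul_le_mul_of_nonneg_left h2
        positivity
    _ = (n.descFactorial (3 * s + 1) : ℝ) *
        ((1 + 4 * 1440 ^ s * (1 - 1 / 10) : ℝ) * p ^ (3 * s)) := by ring
    _ ≤ (n.descFactorial (3 * s + 1) : ℝ) * 1 := by
        apply mul_le_mul_of_nonneg_left h3
        positivity
    _ = _ := mul_one _

/-- the mean-field cost of any feasible product measure -/
theorem cost_ge {n : ℕ} (hn : n = NN s w) {p : ℝ} (hp : p = (w : ℝ) / (n : ℝ))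
    (ξ : Sym2 (Fin n) → ℝ) (h01 : ∀ e, 0 ≤ ξ e ∧ ξ e ≤ 1)
    (hfeas : (1 + 4 * 1440 ^ s * (1 - 1 / 10)) *
      mean n (fun _ => p) (fun G => (copies (spider s) G : ℝ)) ≤
      mean n ξ (fun G => (copies (spider s) G : ℝ))) :
    9600 * Real.log 2 * (w : ℝ) ^ 2 * (2 : ℝ) ^ (800 * w) ≤
      ∑ e ∈ pairs n, relEnt p (ξ e) := by
  have h1000 := s_big hs
  obtain ⟨hp0, hp20⟩ := p_small hs hw (p := p) (by rw [hp, hn])
  have hlow := mean_const_lower hs hw (p := p) (by rw [hp, hn])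
  have hNr := NN_real s w
  rw [← hn] at hlow hNr
  have hw0 : (0 : ℝ) < w := by
    have : 0 < w := by omega
    exact_mod_cast this
  have hw1 : (1000 : ℝ) ≤ w := by
    have : 1000 ≤ w := by omega
    exact_mod_cast this
  have hN : (0 : ℝ) < n := by
    rw [hNr]
    positivity
  have hl1 := one_lt_log2
  have hl2 := log2_lt
  by_contra hlt
  push Not at hlt
  obtain ⟨E, hE⟩ : ∃ E : ℝ, E = (2 : ℝ) ^ (800 * w) := ⟨_, rfl⟩
  rw [← hE] at hlt hNr
  have hE0 : 0 < E := by rw [hE]; positivity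
  obtain ⟨B, hB⟩ : ∃ B : ℝ, B = 9600 * Real.log 2 * (w : ℝ) ^ 2 * E := ⟨_, rfl⟩
  rw [← hB] at hlt
  have hB0 : 0 ≤ B := by rw [hB]; positivity
  obtain ⟨T, hT⟩ : ∃ T : ℝ, T = (2 : ℝ) ^ (760 * w) := ⟨_, rfl⟩
  have hT0 : 0 < T := by rw [hT]; positivity
  have hT1 : 1 ≤ T := by rw [hT]; exact one_le_pow₀ (by norm_num)
  have hlogT : Real.log T = 760 * w * Real.log 2 := by
    rw [hT, Real.log_pow]
    push_cast
    ring
  obtain ⟨T', hlogT', hT'10, hsT'⟩ : ∃ T' : ℝ, Real.log T' = 4800 * Real.log 2 ∧ 10 ≤ T' ∧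
      T' ≤ s := by
    refine ⟨(2 : ℝ) ^ 4800, ?_, ?_, hs⟩
    · rw [Real.log_pow]
      push_cast
      ring
    · calc (10 : ℝ) ≤ 2 ^ 4 := by norm_num
        _ ≤ 2 ^ 4800 := pow_le_pow_right₀ (by norm_num) (by norm_num)
  clear hs
  have hTE : T * 2 ^ (40 * w) = E := by
    rw [hT, hE, ← pow_add]
    congr 1
    ring
  have g1 : (758 : ℝ) * w * Real.log 2 ≤ Real.log T - 1 := by
    rw [hlogT]
    have : (1 : ℝ) ≤ 2 * w * Real.log 2 := by nlinarith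
    nlinarith
  have g2 : (w : ℝ) * T ≤ 12.67 * w * E := by
    have h1 : T ≤ E := by
      rw [← hTE]
      have : (1 : ℝ) ≤ 2 ^ (40 * w) := one_le_pow₀ (by norm_num)
      nlinarith
    have h2 : (w : ℝ) * T ≤ w * E := mul_le_mul_of_nonneg_left h1 hw0.le
    have h3 : 0 ≤ (w : ℝ) * E := by positivity
    nlinarith
  have g3 : B ≤ 12.67 * w * E * (758 * w * Real.log 2) := by
    have h1 : 12.67 * w * E * (758 * w * Real.log 2) =
        9603.86 * (Real.log 2 * (w : ℝ) ^ 2 * E) := by ring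
    rw [h1, hB]
    have h2 : 0 ≤ Real.log 2 * (w : ℝ) ^ 2 * E := by positivity
    nlinarith
  have g4 : (w : ℝ) * (T' - 1) ≤ Real.log (1 / 2240 / p) - 1 := by
    have e1 : (1 / 2240 : ℝ) / p = (n : ℝ) / (2240 * w) := by
      rw [hp]
      field_simp
    rw [e1, Real.log_div hN.ne' (by positivity)]
    have e2 : Real.log (2240 * (w : ℝ)) ≤ 2240 * w := by
      have := Real.log_le_sub_one_of_pos (show (0 : ℝ) < 2240 * w by positivity)
      linarith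
    have e3 : Real.log (n : ℝ) = 1600 * s * w * Real.log 2 := by
      rw [hNr, hE, ← pow_mul, Real.log_pow]
      push_cast
      ring
    rw [e3]
    have e4 := num_L hT'10 hsT' hw1 hl1
    linarith
  have g5 : 8 * (w : ℝ) * (12.67 * w * E) + (2 * (1 / 2240) * B + 3 * B / Real.log T') ≤
      113.31 * (w : ℝ) ^ 2 * E := by
    rw [hlogT', hB]
    exact num_M (by linarith) hl2 hE0.le
  have hbd := mean_bound (s := s) (n := n) (by omega) ξ h01 (p := p) (w := (w : ℝ)) (I := B)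
    hp0 (by linarith) (by rw [hp]; field_simp) hlt.le hT1 (by positivity) g1 g2 g3
    (by norm_num) (by linarith) g4 g5
  obtain ⟨Q, hQ⟩ : ∃ Q : ℝ, Q = (w : ℝ) ^ (3 * s) * n := ⟨_, rfl⟩
  have hQ0 : 0 < Q := by rw [hQ]; positivity
  have hQE : Q = (w : ℝ) ^ (3 * s) * E ^ (2 * s) := by rw [hQ, hNr]
  have h2B : 2 * B ≤ 13440 * (w : ℝ) ^ 2 * E := by
    rw [hB]
    have e2 : 0 ≤ (w : ℝ) ^ 2 * E := by positivity
    have e3 : Real.log 2 * ((w : ℝ) ^ 2 * E) ≤ 0.7 * ((w : ℝ) ^ 2 * E) :=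
      mul_le_mul_of_nonneg_right (by linarith) e2
    nlinarith
  have t1 := num_t1 s hw0.le hE0.le hQE
  have t3 := num_t3 s hw0.le hN.le
  rw [← hQ] at t3
  obtain ⟨r, hr⟩ : ∃ r, s = r + 1 := ⟨s - 1, by omega⟩
  have t2 : (113.31 * (w : ℝ) ^ 2 * E) ^ s * ((w : ℝ) * T) ^ (s - 1) * (2 * B) ≤
      1 / 10 * 1440 ^ s * Q := by
    rw [hr, Nat.add_sub_cancel]
    exact num_t2 (by omega) (by omega) hB0 h2B hT0 hE0 hTE (by rw [hQE, hr])
  have t4 : (16 * (w : ℝ)) ^ s * (2 * B) ^ (s + 1) ≤ 1 / 10 * 1440 ^ s * Q := by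
    rw [hr]
    exact num_t4 (by omega) (by omega) hB0 h2B hE (by rw [hQE, hr])
  have hup : mean n ξ (fun G => (copies (spider s) G : ℝ)) ≤ 3.2 * (1440 ^ s * Q) := by
    refine le_trans hbd ?_
    linarith
  have hdown : 3.42 * (1440 ^ s * Q) ≤
      mean n ξ (fun G => (copies (spider s) G : ℝ)) := by
    refine le_trans ?_ hfeas
    have h1 := mean_const_ge (s := s) (n := n) (p := p) hp0.le (by linarith)
    have h2 : (19 / 20 : ℝ) * Q ≤ mean n (fun _ => p) (fun G => (copies (spider s) G : ℝ)) := by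
      rw [hQ]
      exact le_trans hlow h1
    have h1440 : (1 : ℝ) ≤ 1440 ^ s := one_le_pow₀ (by norm_num)
    calc 3.42 * (1440 ^ s * Q) = (3.6 * 1440 ^ s) * ((19 / 20 : ℝ) * Q) := by ring
      _ ≤ (1 + 4 * 1440 ^ s * (1 - 1 / 10)) *
          mean n (fun _ => p) (fun G => (copies (spider s) G : ℝ)) := by
          apply mul_le_mul _ h2 (by positivity) (by positivity)
          linarith
  have : 0 < 1440 ^ s * Q := by positivity
  linarith

/-- the lower bound for the mean-field value -/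
theorem psi_ge {n : ℕ} (hn : n = NN s w) {p : ℝ} (hp : p = (w : ℝ) / (n : ℝ)) :
    9600 * Real.log 2 * (w : ℝ) ^ 2 * (2 : ℝ) ^ (800 * w) ≤
      Psi (spider s) n p (4 * 1440 ^ s * (1 - 1 / 10)) := by
  have h1000 := s_big hs
  obtain ⟨hp0, hp20⟩ := p_small hs hw (p := p) (by rw [hp, hn])
  unfold Psi
  apply le_csInf
  · exact ⟨_, fun _ => 1, fun _ => ⟨zero_le_one, le_refl _⟩,
      num_feas (by omega) hp0 hp20, rfl⟩
  · rintro y ⟨ξ, h01, hfeas, rfl⟩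
    exact cost_ge hs hw hn hp ξ h01 hfeas

end

end Pool.Agent.Q221.MeanField
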