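import Mathlib.Analysis.SpecialFunctions.Exp
import Mathlib.Tactic
import Pool.Agent.Q221.MeanField.Numeric

/-!
# The adaptive strategy: a lower bound for the upper tail probability
-/

set_option autoImplicit false

namespace Pool.Agent.Q221.MeanField

open Finset

theorem choose_lower (m j : ℕ) :
    (((m + 1 - j : ℕ) : ℝ)) ^ j ≤ (j : ℝ) ^ j * (m.choose j : ℝ) := by
  have h1 := Nat.pow_sub_le_descFactorial m j
  have h2 : m.descFactorial j = j.factorial * m.choose j := Nat.descFactorial_eq_factorial_mul_choose m j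
  have h3 : j.factorial ≤ j ^ j := Nat.factorial_le_pow j
  have h4 : (m + 1 - j) ^ j ≤ j ^ j * m.choose j := by
    rw [h2] at h1
    exact le_trans h1 (Nat.mul_le_mul_right _ h3)
  exact_mod_cast h4

theorem choose_lower' {n m j : ℕ} (hj : 1 ≤ j) (hm : n ≤ 4 * (m + 1 - j)) :
    ((n : ℝ) / (4 * j)) ^ j ≤ (m.choose j : ℝ) := by
  have h1 := choose_lower m j
  have hj0 : (0 : ℝ) < j := by exact_mod_cast hj
  have h2 : (n : ℝ) / 4 ≤ ((m + 1 - j : ℕ) : ℝ) := by
    have : (n : ℝ) ≤ 4 * ((m + 1 - j : ℕ) : ℝ) := by exact_mod_cast hm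
    linarith
  have h3 : ((n : ℝ) / 4) ^ j ≤ (j : ℝ) ^ j * (m.choose j : ℝ) :=
    le_trans (pow_le_pow_left₀ (by positivity) h2 j) h1
  have h4 : ((n : ℝ) / (4 * j)) ^ j = ((n : ℝ) / 4) ^ j / (j : ℝ) ^ j := by
    rw [← div_pow]
    congr 1
    field_simp
  rw [h4, div_le_iff₀ (by positivity)]
  linarith

theorem exp_le_one_sub {p : ℝ} (hp0 : 0 ≤ p) (hp1 : p ≤ 1 / 2) :
    Real.exp (-(2 * p)) ≤ 1 - p := by
  have h1 : 1 + 2 * p ≤ Real.exp (2 * p) := by
    have := Real.add_one_le_exp (2 * p)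
    linarith
  rw [Real.exp_neg]
  have h2 : (Real.exp (2 * p))⁻¹ ≤ (1 + 2 * p)⁻¹ := inv_anti₀ (by linarith) h1
  refine le_trans h2 ?_
  rw [inv_le_iff_one_le_mul₀ (by linarith)]
  nlinarith

theorem exp_nat {A : ℝ} (hA : 0 < A) (a : ℕ) : (1 / A) ^ a = Real.exp (-(a * Real.log A)) := by
  rw [Real.exp_neg, mul_comm, Real.exp_mul, Real.exp_log hA, Real.rpow_natCast, one_div, inv_pow]

theorem pow1500 {s : ℕ} (hs : 96 ≤ s) : (1 + 4 * 1440 ^ s : ℝ) ≤ 1500 ^ s := by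
  have h1 : (1500 : ℝ) ^ s = 1440 ^ s * (1 + 1 / 24) ^ s := by
    rw [← mul_pow]
    norm_num
  have h2 : 1 + (s : ℝ) * (1 / 24) ≤ (1 + 1 / 24) ^ s := one_add_mul_le_pow (by norm_num) s
  have h3 : (96 : ℝ) ≤ s := by exact_mod_cast hs
  have h4 : (1 : ℝ) ≤ 1440 ^ s := one_le_pow₀ (by norm_num)
  have h5 : (5 : ℝ) ≤ (1 + 1 / 24) ^ s := by linarith
  rw [h1]
  nlinarith

theorem num_final {w : ℕ} (hw : 1000 ≤ w) {E a lg : ℝ} (hE : 1 ≤ E) (ha : a = 6 * w * E)
    (hlg : 0.69 ≤ lg) :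
    a * (5 * lg + 800 * w * lg) + 512 * w * a * lg + w * (1 + a) ≤ 7884 * lg * (w : ℝ) ^ 2 * E := by
  have hw' : (1000 : ℝ) ≤ w := by exact_mod_cast hw
  have h1 : 7884 * lg * (w : ℝ) ^ 2 * E - (a * (5 * lg + 800 * w * lg) + 512 * w * a * lg +
      w * (1 + a)) = E * w * (lg * (12 * w - 30) - 6 * w) - w := by
    rw [ha]
    ring
  have h2 : 2 * (w : ℝ) - 30 ≤ lg * (12 * w - 30) - 6 * w := by nlinarith
  have h3 : (1 : ℝ) ≤ lg * (12 * w - 30) - 6 * w := by linarith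
  have h4 : (w : ℝ) ≤ E * w := by nlinarith
  have h5 : (0 : ℝ) ≤ E * w := by nlinarith
  have h6 : E * w * 1 ≤ E * w * (lg * (12 * w - 30) - 6 * w) :=
    mul_le_mul_of_nonneg_left h3 h5
  linarith

section

variable {s w : ℕ} (hs : (2 : ℝ) ^ 4800 ≤ s) (hw : s ≤ w)

include hs hw

theorem prob_ge {n : ℕ} (hn : n = NN s w) {p : ℝ} (hp : p = (w : ℝ) / (n : ℝ)) :
    Real.exp (-(7884 * Real.log 2 * (w : ℝ) ^ 2 * (2 : ℝ) ^ (800 * w))) ≤
      upper (spider s) n p ((1 + 4 * 1440 ^ s) * ((n : ℝ) ^ (3 * s + 1) * p ^ (3 * s))) := by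
  have h1000 := s_big hs
  obtain ⟨hp0, hp20⟩ := p_small hs hw (p := p) (by rw [hp, hn])
  have hNr := NN_real s w
  rw [← hn] at hNr
  clear hs
  have hw0 : (0 : ℝ) < w := by
    have : 0 < w := by omega
    exact_mod_cast this
  have hw1000 : 1000 ≤ w := by omega
  obtain ⟨e, he⟩ : ∃ e : ℕ, e = 2 ^ (800 * w) := ⟨_, rfl⟩
  have heR : (e : ℝ) = (2 : ℝ) ^ (800 * w) := by rw [he]; push_cast; rfl
  rw [← heR] at hNr ⊢
  have he1 : 1 ≤ e := by rw [he]; exact Nat.one_le_two_pow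
  have heR1 : (1 : ℝ) ≤ e := by exact_mod_cast he1
  have hlog : Real.log (e : ℝ) = 800 * w * Real.log 2 := by
    rw [heR, Real.log_pow]
    push_cast
    ring
  have he2 : 2 ≤ e := by
    rw [he]
    calc 2 = 2 ^ 1 := by norm_num
      _ ≤ 2 ^ (800 * w) := Nat.pow_le_pow_right (by norm_num) (by omega)
  have hwe : 2 * w ≤ w * e := by
    rw [mul_comm 2 w]
    exact Nat.mul_le_mul_left _ he2
  have hnN : n = e ^ (2 * s) := by exact_mod_cast hNr
  -- size
  have hbig : 256 * w * e ≤ n := by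
    rw [hnN]
    have h1 : w < 2 ^ w := Nat.lt_two_pow_self
    calc 256 * w * e ≤ 2 ^ 8 * 2 ^ w * e := by
          apply Nat.mul_le_mul_right
          exact Nat.mul_le_mul (by norm_num) h1.le
      _ = 2 ^ (8 + w) * e := by rw [pow_add]
      _ ≤ 2 ^ (800 * w) * e := by
          apply Nat.mul_le_mul_right
          exact Nat.pow_le_pow_right (by norm_num) (by omega)
      _ = e ^ 2 := by rw [← he]; ring
      _ ≤ e ^ (2 * s) := Nat.pow_le_pow_right he1 (by omega)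
  have hn0 : 0 < n := by
    rw [hnN]
    positivity
  have hN : (0 : ℝ) < n := by exact_mod_cast hn0
  have heven : 2 * (n / 2) = n := by
    have : 2 ∣ n := by
      rw [hnN, he]
      apply dvd_pow _ (by omega)
      exact dvd_pow_self 2 (by omega)
    omega
  obtain ⟨a, ha⟩ : ∃ a : ℕ, a = 6 * w * e := ⟨_, rfl⟩
  obtain ⟨k, hk⟩ : ∃ k : ℕ, k = 64 * w := ⟨_, rfl⟩
  obtain ⟨m, hm⟩ : ∃ m : ℕ, m + 1 = n / 2 := ⟨n / 2 - 1, by
    have : w * e ≥ 1 := Nat.mul_pos (by omega) he1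
    have : 256 * (w * e) ≤ n := by rw [← mul_assoc]; exact hbig
    omega⟩
  have hbig' : 256 * (w * e) ≤ n := by rw [← mul_assoc]; exact hbig
  have ha' : a = 6 * (w * e) := by rw [ha, mul_assoc]
  have ha1 : 1 ≤ a := by
    rw [ha']
    omega
  have hk1 : 1 ≤ k := by omega
  have hma : n ≤ 4 * (m + 1 - a) := by omega
  have hmk : n ≤ 4 * (m + 1 - k) := by omega
  -- the sets
  let b : Fin n := ⟨0, hn0⟩
  have hc : 2 * m ≤ (univ.erase b : Finset (Fin n)).card := by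
    rw [card_erase_of_mem (mem_univ _), card_univ, Fintype.card_fin]
    omega
  obtain ⟨Y, hY1, hY2⟩ := exists_subset_card_eq hc
  obtain ⟨U, hU1, hU2⟩ := exists_subset_card_eq (show m ≤ Y.card by omega)
  have hO2 : (Y \ U).card = m := by
    rw [card_sdiff_of_subset hU1, hY2, hU2]
    omega
  have hbY : b ∉ Y := fun h => by
    have := hY1 h
    rw [mem_erase] at this
    exact this.1 rfl
  have hx : (1 + 4 * 1440 ^ s) * ((n : ℝ) ^ (3 * s + 1) * p ^ (3 * s)) ≤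
      ((((a - 2 * s) ^ 2 * (k - s)) ^ s : ℕ) : ℝ) := by
    have e1 : 5 * (w * e) ≤ a - 2 * s := by
      rw [ha']
      omega
    have e2 : 60 * w ≤ k - s := by omega
    have e3 : ((5 * (w * e)) ^ 2 * (60 * w)) ^ s ≤ ((a - 2 * s) ^ 2 * (k - s)) ^ s := by
      gcongr
    have e4 : (((5 * (w * e)) ^ 2 * (60 * w)) ^ s : ℝ) ≤
        ((((a - 2 * s) ^ 2 * (k - s)) ^ s : ℕ) : ℝ) := by exact_mod_cast e3
    refine le_trans ?_ e4
    have e5 : (((5 * ((w : ℝ) * e)) ^ 2 * (60 * w)) ^ s : ℝ) =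
        1500 ^ s * ((w : ℝ) ^ (3 * s) * n) := by
      rw [show ((5 * ((w : ℝ) * e)) ^ 2 * (60 * w)) = 1500 * ((w : ℝ) ^ 3 * (e : ℝ) ^ 2) by ring,
        mul_pow, mul_pow, ← pow_mul, ← pow_mul, hNr]
    rw [e5]
    have e6 : (n : ℝ) ^ (3 * s + 1) * p ^ (3 * s) = (w : ℝ) ^ (3 * s) * n := by
      rw [hp, div_pow, pow_succ]
      field_simp
    rw [e6]
    apply mul_le_mul_of_nonneg_right (pow1500 (by omega)) (by positivity)
  have hmain := upper_ge b U (Y \ U) (fun h => hbY (hU1 h)) (fun h => hbY (mem_sdiff.mp h).1)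
    disjoint_sdiff hU2 hO2 hp0.le (by linarith) hx
  refine le_trans ?_ hmain
  have hca := choose_lower' ha1 hma
  have hck := choose_lower' hk1 hmk
  have haR : (a : ℝ) = 6 * w * e := by rw [ha]; push_cast; ring
  have hkR : (k : ℝ) = 64 * w := by rw [hk]; push_cast; ring
  have haR0 : (0 : ℝ) < a := by rw [haR]; positivity
  have hkR0 : (0 : ℝ) < k := by rw [hkR]; positivity
  -- the power of (1 - p)
  have h1p : Real.exp (-((w : ℝ) * (1 + a))) ≤ (1 - p) ^ (m + a * m) := by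
    have e1 := exp_le_one_sub hp0.le (by linarith : p ≤ 1 / 2)
    have e2 : Real.exp (-(2 * p)) ^ (m + a * m) ≤ (1 - p) ^ (m + a * m) :=
      pow_le_pow_left₀ (Real.exp_pos _).le e1 _
    refine le_trans ?_ e2
    rw [← Real.exp_nat_mul]
    apply Real.exp_le_exp.mpr
    have e3 : (m : ℝ) ≤ n / 2 := by
      have : (2 * m : ℝ) ≤ n := by
        have : 2 * m ≤ n := by omega
        exact_mod_cast this
      linarith
    have e4 : p * m ≤ w / 2 := by
      calc p * m ≤ p * (n / 2) := mul_le_mul_of_nonneg_left e3 hp0.le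
        _ = w / 2 := by rw [hp]; field_simp
    have e5 : ((m + a * m : ℕ) : ℝ) * -(2 * p) = -(2 * (p * m) * (1 + a)) := by
      push_cast
      ring
    rw [e5]
    have e6 : (2 * (p * m)) * (1 + (a : ℝ)) ≤ w * (1 + a) := by
      apply mul_le_mul_of_nonneg_right _ (by positivity)
      linarith
    linarith
  have hprod : (1 / (24 * (e : ℝ))) ^ a * ((1 / 256 : ℝ) ^ k) ^ a *
      Real.exp (-((w : ℝ) * (1 + a))) ≤
      (m.choose a : ℝ) * (m.choose k : ℝ) ^ a * (p ^ (a + a * k) * (1 - p) ^ (m + a * m)) := by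
    have e1 : (1 / (24 * (e : ℝ))) ^ a = ((n : ℝ) / (4 * a)) ^ a * p ^ a := by
      rw [← mul_pow]
      congr 1
      rw [hp, haR]
      field_simp
      ring
    have e2 : ((1 / 256 : ℝ) ^ k) ^ a = (((n : ℝ) / (4 * k)) ^ k) ^ a * p ^ (a * k) := by
      rw [show a * k = k * a by ring, pow_mul p k a, ← mul_pow, ← mul_pow]
      congr 2
      rw [hp, hkR]
      field_simp
      ring
    rw [e1, e2, pow_add]
    calc ((n : ℝ) / (4 * a)) ^ a * p ^ a * ((((n : ℝ) / (4 * k)) ^ k) ^ a * p ^ (a * k)) *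
        Real.exp (-((w : ℝ) * (1 + a)))
        = ((n : ℝ) / (4 * a)) ^ a * (((n : ℝ) / (4 * k)) ^ k) ^ a *
          (p ^ a * p ^ (a * k) * Real.exp (-((w : ℝ) * (1 + a)))) := by ring
      _ ≤ (m.choose a : ℝ) * (m.choose k : ℝ) ^ a *
          (p ^ a * p ^ (a * k) * (1 - p) ^ (m + a * m)) := by
          gcongr
  refine le_trans ?_ hprod
  rw [exp_nat (by positivity), ← pow_mul, exp_nat (by norm_num), ← Real.exp_add, ← Real.exp_add]
  apply Real.exp_le_exp.mpr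
  have f1 : Real.log (24 * (e : ℝ)) ≤ 5 * Real.log 2 + 800 * w * Real.log 2 := by
    rw [Real.log_mul (by norm_num) (by positivity), hlog]
    have : Real.log 24 ≤ 5 * Real.log 2 := by
      rw [show (5 : ℝ) * Real.log 2 = Real.log (2 ^ 5) by rw [Real.log_pow]; push_cast; ring]
      exact Real.log_le_log (by norm_num) (by norm_num)
    linarith
  have f2 : Real.log 256 = 8 * Real.log 2 := by
    rw [show (256 : ℝ) = 2 ^ 8 by norm_num, Real.log_pow]
    push_cast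
    ring
  rw [f2]
  have f3 : (a : ℝ) * Real.log (24 * (e : ℝ)) ≤ a * (5 * Real.log 2 + 800 * w * Real.log 2) :=
    mul_le_mul_of_nonneg_left f1 haR0.le
  have f4 : ((k * a : ℕ) : ℝ) * (8 * Real.log 2) = 512 * w * a * Real.log 2 := by
    push_cast
    rw [hkR]
    ring
  rw [f4]
  have f5 := num_final hw1000 heR1 haR one_lt_log2
  linarith

/-- the mean-field value exceeds the true cost by a constant factor -/
theorem mean_field_fails {n : ℕ} (hn : n = NN s w) {p : ℝ} (hp : p = (w : ℝ) / (n : ℝ)) :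
    -Real.log (upper (spider s) n p
      ((1 + 4 * 1440 ^ s) * ((n : ℝ) ^ (3 * s + 1) * p ^ (3 * s)))) <
      (1 - 1 / 10) * Psi (spider s) n p (4 * 1440 ^ s * (1 - 1 / 10)) := by
  have h1 := prob_ge hs hw hn hp
  have h2 := psi_ge hs hw hn hp
  have h3 := Real.log_le_log (Real.exp_pos _) h1
  rw [Real.log_exp] at h3
  have hw0 : (0 : ℝ) < w := by
    have := s_big hs
    have : 0 < w := by omega
    exact_mod_cast this
  have hl : 0 < Real.log 2 := Real.log_pos (by norm_num)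
  have h4 : 0 < Real.log 2 * ((w : ℝ) ^ 2 * (2 : ℝ) ^ (800 * w)) := by positivity
  have h5 : (1 - 1 / 10 : ℝ) * (9600 * Real.log 2 * (w : ℝ) ^ 2 * (2 : ℝ) ^ (800 * w)) ≤
      (1 - 1 / 10) * Psi (spider s) n p (4 * 1440 ^ s * (1 - 1 / 10)) :=
    mul_le_mul_of_nonneg_left h2 (by norm_num)
  have h6 : (1 - 1 / 10 : ℝ) * (9600 * Real.log 2 * (w : ℝ) ^ 2 * (2 : ℝ) ^ (800 * w)) =
      8640 * (Real.log 2 * ((w : ℝ) ^ 2 * (2 : ℝ) ^ (800 * w))) := by ring
  have h7 : 7884 * Real.log 2 * (w : ℝ) ^ 2 * (2 : ℝ) ^ (800 * w) =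
      7884 * (Real.log 2 * ((w : ℝ) ^ 2 * (2 : ℝ) ^ (800 * w))) := by ring
  rw [h6] at h5
  rw [h7] at h3
  linarith

end

end Pool.Agent.Q221.MeanField
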